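import Pool.Agent.W908.K.K3

/-!
# The oracle: random keys, exceptional blocks, and a solver that sees only a part
-/

set_option autoImplicit false

namespace Pool.Agent.W908.KS.JS

open Pool.Agent.NPC Pool.Agent.H620R2.Gauge Finset H568R2 Pool.Agent.H676
open Pool.Agent.W908.SP (Fo Qo bv unif_nn unif_sm Ex_owr Ex_unif_av)
open Pool.Agent.W908 (fr mach)
open Pool.Agent.W908.HS (mkP mkP_surj fo lvl pd unpair_len2)

/-- the block `z` is exceptional, and of length less than `2 * L` -/
def Exc (P : ℕ → List Bool) (L : ℕ) (z : List Bool) : Prop :=
  ∃ m, m < L ∧ z.length = 2 * m ∧ z.drop m = P m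

open Classical in
/-- the answers with a key -/
noncomputable def kans (P : ℕ → List Bool) (L : ℕ) (A : Oracle) (w z : List Bool) : Bool :=
  match w with
  | [] => false
  | _ :: w => decide (w = key A z) && (decide (¬ Exc P L z) || A (kp z z.length))

/-- the data -/
noncomputable def dat (P : ℕ → List Bool) (L : ℕ) (A : Oracle) : Oracle
  | [] => false
  | false :: s => A (false :: false :: s)
  | true :: t => kans P L A (unpair t).1 (unpair t).2

theorem kans_congr {P P' : ℕ → List Bool} {L L' : ℕ} {A A' : Oracle} {w z : List Bool}
    (hE : Exc P L z ↔ Exc P' L' z)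
    (h : w.length = z.length + 1 → ∀ i ≤ z.length, A (kp z i) = A' (kp z i)) :
    kans P L A w z = kans P' L' A' w z := by
  classical
  unfold kans
  match w with
  | [] => rfl
  | c :: w =>
    by_cases hw : w.length = z.length
    · have h1 := h (by rw [List.length_cons, hw])
      have h2 : key A z = key A' z := by
        unfold key
        refine List.map_congr_left fun i hi => h1 i ?_
        rw [List.mem_range] at hi
        omega
      simp only [h2, h1 z.length le_rfl, hE]
    · have h2 : ∀ B : Oracle, decide (w = key B z) = false := by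
        intro B
        refine decide_eq_false fun h3 => hw ?_
        rw [h3, length_key]
      simp only [h2, Bool.false_and]

/-- the data of a query depend on shorter positions, for the same string -/
theorem dat_congr {P P' : ℕ → List Bool} {L L' : ℕ} {A A' : Oracle} {s : List Bool}
    (hE : ∀ z : List Bool, z.length < s.length → (Exc P L z ↔ Exc P' L' z))
    (h : ∀ t, (false :: t).length ≤ (false :: s).length → A (false :: t) = A' (false :: t)) :
    dat P L A s = dat P' L' A' s := by
  match s with
  | [] => rfl
  | false :: s => exact h (false :: s) le_rfl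
  | true :: t =>
    refine kans_congr (hE _ ?_) fun hw i hi =>
      h (true :: pairBits (List.replicate i true) (unpair t).2) ?_
    · have := unpair_len2 t
      rw [List.length_cons]
      omega
    · exact (kp_short hw hi).le

/-- the data of an unprotected query do not depend on protected positions -/
theorem dat_star {P : ℕ → List Bool} {ℓ L : ℕ} {A A' : Oracle} {s : List Bool}
    (h : ∀ t, ¬ Star P ℓ t → A t = A' t) (hs : ¬ Star P ℓ (false :: s)) :
    dat P L A s = dat P L A' s := by
  match s with
  | [] => rfl
  | false :: s => exact h _ hs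
  | true :: t =>
    refine kans_congr Iff.rfl fun hw i hi => h _ fun hk => hs ?_
    obtain ⟨m, h1, h2, h3⟩ := hk
    rw [core_kp] at h3
    exact ⟨m, h1, h2.trans (kp_short hw hi).le, h3⟩

/-- a long exceptional block is protected -/
theorem star_of_exc {P : ℕ → List Bool} {ℓ L : ℕ} {t : List Bool}
    (h : Exc P L (unpair t).2) (h2 : ¬ Exc P ℓ (unpair t).2) :
    Star P ℓ (false :: true :: t) := by
  obtain ⟨m, h3, h4, h5⟩ := h
  have hm : ℓ ≤ m := by
    by_contra hcon
    exact h2 ⟨m, by omega, h4, h5⟩
  have h6 := unpair_len2 t
  refine ⟨m, hm, ?_, ?_⟩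
  · rw [List.length_cons, List.length_cons]
    omega
  · show (P m).take ℓ <:+: (unpair t).2
    rw [← h5]
    exact ((List.take_prefix _ _).isInfix).trans (List.drop_suffix _ _).isInfix

/-- the data of an unprotected query do not depend on long exceptional blocks -/
theorem dat_star_L {P : ℕ → List Bool} {ℓ L : ℕ} {A A' : Oracle} {s : List Bool} (hL : ℓ ≤ L)
    (h : ∀ t, ¬ Star P ℓ t → A t = A' t) (hs : ¬ Star P ℓ (false :: s)) :
    dat P L A s = dat P ℓ A' s := by
  rw [dat_star h hs]
  match s with
  | [] => rfl
  | false :: s => rfl
  | true :: t =>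
    refine kans_congr ⟨fun h1 => ?_, fun h1 => ?_⟩ fun _ _ _ => rfl
    · by_contra h2
      exact hs (star_of_exc h1 h2)
    · obtain ⟨m, h3, h4⟩ := h1
      exact ⟨m, by omega, h4⟩

/-- The answer of the solver: the more likely value if the protected bits are random and there
are no long exceptional blocks. -/
noncomputable def slv (P : ℕ → List Bool) (F : ℕ → Oracle → Oracle) (A : Oracle) (N : ℕ)
    (q : List Bool) : Bool :=
  decide (1 / 2 ≤ Ex unif (fun z : Fin N → Bool =>
    bv (pd q (F (lvl q) (rr P (lvl q) A (orc N z))))))

/-- the answer to a question of length `T` -/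
noncomputable def ev (P : ℕ → List Bool) (F : ℕ → Oracle → Oracle) (L : ℕ) (A : Oracle) (T : ℕ) :
    List Bool → Bool
  | [] => false
  | false :: s => dat P L A s
  | true :: q => slv P F A (2 ^ (T + 1)) q

/-- the oracle for the questions of length less than `T` -/
noncomputable def oh (P : ℕ → List Bool) : ℕ → ℕ → Oracle → Oracle
  | 0 => fun _ _ _ => false
  | T + 1 => fun L A s => if s.length < T then oh P T L A s else
      if s.length = T then ev P (oh P T) L A T s else false

theorem oh_ge {P : ℕ → List Bool} {T L : ℕ} {A : Oracle} {s : List Bool} (h : T ≤ s.length) :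
    oh P T L A s = false := by
  cases T with
  | zero => rfl
  | succ T =>
    show (if s.length < T then oh P T L A s else
      if s.length = T then ev P (oh P T) L A T s else false) = false
    rw [if_neg (by omega), if_neg (by omega)]

theorem oh_lt {P : ℕ → List Bool} {A : Oracle} {L : ℕ} {s : List Bool} : ∀ {T : ℕ},
    s.length < T → oh P T L A s = ev P (oh P s.length) L A s.length s := by
  intro T
  induction T with
  | zero => intro h; omega
  | succ T ih =>
    intro h
    show (if s.length < T then oh P T L A s else
      if s.length = T then ev P (oh P T) L A T s else false) = _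
    by_cases h1 : s.length < T
    · rw [if_pos h1, ih h1]
    · have h2 : s.length = T := by omega
      rw [if_neg h1, if_pos h2, h2]

theorem oh_data {P : ℕ → List Bool} {A : Oracle} {T L : ℕ} {s : List Bool}
    (h : (false :: s).length < T) : oh P T L A (false :: s) = dat P L A s := by
  rw [oh_lt h]
  rfl

theorem oh_slv {P : ℕ → List Bool} {A : Oracle} {T L : ℕ} {q : List Bool}
    (h : (true :: q).length < T) : oh P T L A (true :: q) =
      slv P (oh P (q.length + 1)) A (2 ^ (q.length + 2)) q := by
  rw [oh_lt h]
  rfl

theorem oh_nil {P : ℕ → List Bool} {A : Oracle} {T L : ℕ} : oh P T L A [] = false := by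
  by_cases h : ([] : List Bool).length < T
  · rw [oh_lt h]
    rfl
  · exact oh_ge (by omega)

theorem oh_trunc {P : ℕ → List Bool} {A : Oracle} {T T' L : ℕ} {s : List Bool}
    (h : s.length < T) (h' : s.length < T') : oh P T L A s = oh P T' L A s := by
  rw [oh_lt h, oh_lt h']

/-- the answers of the solver do not depend on `L` -/
theorem oh_slv_L {P : ℕ → List Bool} {A : Oracle} {T L L' : ℕ} (q : List Bool) :
    oh P T L A (true :: q) = oh P T L' A (true :: q) := by
  by_cases h : (true :: q).length < T
  · rw [oh_slv h, oh_slv h]
  · rw [oh_ge (by omega), oh_ge (by omega)]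

/-- locality -/
theorem oh_congr {P P' : ℕ → List Bool} : ∀ {T L : ℕ} {A A' : Oracle}, (∀ m < T, P m = P' m) →
    (∀ s : List Bool, (false :: s).length < T → A (false :: s) = A' (false :: s)) →
    oh P T L A = oh P' T L A' := by
  intro T
  induction T using Nat.strong_induction_on with
  | _ T ih =>
    intro L A A' hP hA
    funext s
    by_cases h : s.length < T
    · match s with
      | [] => rw [oh_nil, oh_nil]
      | false :: s =>
        rw [oh_data h, oh_data h]
        refine dat_congr (fun z hz => ?_) fun t ht => hA t (by omega)
        rw [List.length_cons] at h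
        unfold Exc
        refine exists_congr fun m => and_congr_right fun _ => and_congr_right fun h2 => ?_
        rw [hP m (by omega)]
      | true :: q =>
        rw [oh_slv h, oh_slv h]
        unfold slv
        have hl : q.length + 1 < T := by simpa using h
        have e : ∀ z : Fin (2 ^ (q.length + 2)) → Bool,
            oh P (q.length + 1) (lvl q) (rr P (lvl q) A (orc _ z)) =
              oh P' (q.length + 1) (lvl q) (rr P' (lvl q) A' (orc _ z)) := by
          intro z
          refine ih _ hl (fun m hm => hP m (by omega)) fun s hs => ?_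
          exact rr_congr (star_congr (B := T) hP (by omega)) (hA s (by omega))
        simp only [e]
    · rw [oh_ge (by omega), oh_ge (by omega)]

/-- the bound `L` does not matter if it is large -/
theorem oh_L {P : ℕ → List Bool} {A : Oracle} {T L L' : ℕ} (hL : T ≤ L) (hL' : T ≤ L') :
    oh P T L A = oh P T L' A := by
  funext s
  by_cases h : s.length < T
  · match s with
    | [] => rw [oh_nil, oh_nil]
    | false :: s =>
      rw [oh_data h, oh_data h]
      refine dat_congr (fun z hz => ?_) fun t ht => rfl
      rw [List.length_cons] at h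
      constructor
      · rintro ⟨m, h1, h2, h3⟩
        exact ⟨m, by omega, h2, h3⟩
      · rintro ⟨m, h1, h2, h3⟩
        exact ⟨m, by omega, h2, h3⟩
    | true :: q => exact oh_slv_L q
  · rw [oh_ge (by omega), oh_ge (by omega)]

/-- the answers of the solver do not depend on the protected bits -/
theorem oh_star {P : ℕ → List Bool} {T ℓ L L' : ℕ} {A A' : Oracle} (hT : T ≤ 2 ^ ℓ)
    (h : ∀ s, ¬ Star P ℓ s → A s = A' s) (q : List Bool) :
    oh P T L A (true :: q) = oh P T L' A' (true :: q) := by
  by_cases hq : (true :: q).length < T
  · rw [oh_slv hq, oh_slv hq]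
    unfold slv
    have hl : lvl q ≤ ℓ := lvl_le (by simp only [List.length_cons] at hq; omega)
    have e : ∀ Z : Oracle, rr P (lvl q) A Z = rr P (lvl q) A' Z := by
      classical
      intro Z
      funext s
      unfold rr
      by_cases hs : Star P (lvl q) s
      · rw [if_pos hs, if_pos hs]
      · rw [if_neg hs, if_neg hs, h s fun h1 => hs (h1.mono hl)]
    simp only [e]
  · rw [oh_ge (by omega), oh_ge (by omega)]

/-- the secrets agree as far as they matter -/
structure Agree (ℓ L : ℕ) (P P' : ℕ → List Bool) : Prop where
  len : ∀ m, (P m).length = m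
  len' : ∀ m, (P' m).length = m
  pre : ∀ m, (P m).take ℓ = (P' m).take ℓ
  eq : ∀ m < L, P m = P' m

theorem Agree.star {ℓ L ℓ' : ℕ} {P P' : ℕ → List Bool} (h : Agree ℓ L P P') (hl : ℓ' ≤ ℓ)
    {s : List Bool} : Star P ℓ' s ↔ Star P' ℓ' s := by
  unfold Star
  refine exists_congr fun m => and_congr_right fun _ => and_congr_right fun _ => ?_
  have e : (P m).take ℓ' = (P' m).take ℓ' := by
    have h1 := congrArg (List.take ℓ') (h.pre m)
    rw [List.take_take, List.take_take, min_eq_left hl] at h1
    exact h1
  rw [e]

theorem Agree.low {ℓ L ℓ' : ℕ} {P P' : ℕ → List Bool} (h : Agree ℓ L P P') (hl : ℓ' ≤ ℓ) :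
    Agree ℓ ℓ' P P' := by
  refine ⟨h.len, h.len', h.pre, fun m hm => ?_⟩
  have h1 := h.pre m
  rwa [List.take_of_length_le (by rw [h.len]; omega),
    List.take_of_length_le (by rw [h.len']; omega)] at h1

/-- only some bits of the secrets matter -/
theorem oh_agree {P P' : ℕ → List Bool} {ℓ : ℕ} : ∀ {T L : ℕ} {A : Oracle}, T ≤ 2 ^ ℓ →
    Agree ℓ L P P' → oh P T L A = oh P' T L A := by
  intro T
  induction T using Nat.strong_induction_on with
  | _ T ih =>
    intro L A hT hA
    funext s
    by_cases h : s.length < T
    · match s with
      | [] => rw [oh_nil, oh_nil]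
      | false :: s =>
        rw [oh_data h, oh_data h]
        refine dat_congr (fun z hz => ?_) fun t ht => rfl
        unfold Exc
        refine exists_congr fun m => and_congr_right fun h1 => and_congr_right fun _ => ?_
        rw [hA.eq m h1]
      | true :: q =>
        rw [oh_slv h, oh_slv h]
        unfold slv
        have hl : q.length + 1 < T := by simpa using h
        have hl2 : lvl q ≤ ℓ := lvl_le (by omega)
        have e : ∀ z : Fin (2 ^ (q.length + 2)) → Bool,
            oh P (q.length + 1) (lvl q) (rr P (lvl q) A (orc _ z)) =
              oh P' (q.length + 1) (lvl q) (rr P' (lvl q) A (orc _ z)) := by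
          intro z
          rw [ih _ hl (by omega) (hA.low hl2)]
          congr 1
          funext s
          exact rr_congr (hA.star hl2) rfl
        simp only [e]
    · rw [oh_ge (by omega), oh_ge (by omega)]

/-- the oracle -/
noncomputable def OJ (W : Oracle) : Oracle := fun s =>
  oh (PS.pwd W) (s.length + 1) (s.length + 1) W s

theorem OJ_eq {W : Oracle} {T : ℕ} {s : List Bool} (h : s.length < T) :
    OJ W s = oh (PS.pwd W) T T W s := by
  unfold OJ
  rw [oh_L (L' := T) le_rfl (by omega), oh_trunc (Nat.lt_succ_self _) h]

theorem fr_OJ_key (W : Oracle) (t : List Bool) : OJ W (false :: true :: t) =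
    kans (PS.pwd W) (t.length + 3) W (unpair t).1 (unpair t).2 := by
  unfold OJ
  rw [oh_data (by simp)]
  rfl

end Pool.Agent.W908.KS.JS
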