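import Pool.Agent.W908.K.K9

/-! Many hidden bits behind keys cannot be foreseen for more than half of the inputs. -/

set_option autoImplicit false

namespace Pool.Agent.W908.KS.JS

open Pool.Agent.NPC Pool.Agent.H620R2.Gauge Finset H568R2 Pool.Agent.H676
open Pool.Agent.W908.SP (qs length_qs)
open Pool.Agent.W908.PS (qq out_congr)
open Pool.Agent.W908.HS (sg sg_sq)

variable {X : Type} [Fintype X] [DecidableEq X] {n : ℕ}
variable {M : Alg} {y : X → List Bool} {O : (X → (Fin n → Bool)) → (X → Bool) → Oracle}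
  {τ : List Bool → Option (X × (Fin n → Bool))}

open Classical in
theorem gs_sum (hK : Keyed O τ) {p : ℕ} (hp : ∀ x, M.p.eval (y x).length ≤ p) (S : Finset X) :
    ∑ ω : (X → (Fin n → Bool)) × (X → Bool), ∏ x ∈ S, gs M y O x ω ≤
      2 ^ Fintype.card X * (2 ^ n) ^ Fintype.card X *
        (Fintype.card X * p / 2 ^ n) ^ S.card := by
  obtain ⟨K, hKd⟩ : ∃ K, K = Fintype.card X := ⟨_, rfl⟩
  rw [← hKd]
  have hpos : (0 : ℝ) < 2 ^ n := by positivity
  rw [← Finset.sum_filter_add_sum_filter_not univ (fun ω : (X → (Fin n → Bool)) × (X → Bool) =>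
    AllHit M y O τ S ω.1 ω.2), sum_not hK S, add_zero]
  have h4 : ∑ ω ∈ univ.filter (fun ω : (X → (Fin n → Bool)) × (X → Bool) =>
      AllHit M y O τ S ω.1 ω.2), ∏ x ∈ S, gs M y O x ω ≤
      ((univ.filter (fun ω : (X → (Fin n → Bool)) × (X → Bool) =>
      AllHit M y O τ S ω.1 ω.2)).card : ℝ) := by
    rw [← nsmul_one (Finset.card _), ← Finset.sum_const]
    refine Finset.sum_le_sum fun ω _ => ?_
    refine (le_abs_self _).trans ?_
    rw [Finset.abs_prod]
    refine le_of_eq (Finset.prod_eq_one fun x _ => ?_)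
    rcases gs_abs (M := M) (y := y) (O := O) x ω with h | h <;> rw [h] <;> norm_num
  have h5 : (univ.filter (fun ω : (X → (Fin n → Bool)) × (X → Bool) =>
      AllHit M y O τ S ω.1 ω.2)).card ≤
      2 ^ K * ((2 ^ n) ^ (K - S.card) * (S.card * p) ^ S.card) := by
    have h6 : (univ.filter (fun ω : (X → (Fin n → Bool)) × (X → Bool) =>
      AllHit M y O τ S ω.1 ω.2)) = (univ : Finset (X → Bool)).biUnion (fun b =>
        (univ.filter (fun k : X → (Fin n → Bool) => AllHit M y O τ S k b)).image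
          (fun k => (k, b))) := by
      ext ω
      simp only [Finset.mem_filter, Finset.mem_univ, true_and, Finset.mem_biUnion,
        Finset.mem_image]
      constructor
      · intro h
        exact ⟨ω.2, ω.1, h, rfl⟩
      · rintro ⟨b, k, h, rfl⟩
        exact h
    rw [h6]
    refine Finset.card_biUnion_le.trans ?_
    refine (Finset.sum_le_sum (g := fun _ => (2 ^ n) ^ (K - S.card) * (S.card * p) ^ S.card)
      fun b _ => ?_).trans ?_
    · refine Finset.card_image_le.trans ?_
      rw [hKd]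
      exact card_allHit hK S b hp
    · rw [Finset.sum_const, Finset.card_univ, Fintype.card_fun, Fintype.card_bool, ← hKd,
        smul_eq_mul]
  refine h4.trans ?_
  have h7 : ((2 ^ K * ((2 ^ n) ^ (K - S.card) * (S.card * p) ^ S.card) : ℕ) : ℝ) ≤
      2 ^ K * (2 ^ n) ^ K * (K * p / 2 ^ n) ^ S.card := by
    push_cast
    rw [mul_assoc]
    apply mul_le_mul_of_nonneg_left _ (by positivity)
    have hSK : S.card ≤ K := by rw [hKd]; exact Finset.card_le_univ S
    have e1 : ((2 : ℝ) ^ n) ^ K = (2 ^ n) ^ (K - S.card) * (2 ^ n) ^ S.card := by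
      rw [← pow_add, Nat.sub_add_cancel hSK]
    rw [e1, mul_assoc, ← mul_pow]
    apply mul_le_mul_of_nonneg_left _ (by positivity)
    apply pow_le_pow_left₀ (by positivity)
    rw [mul_div_cancel₀ _ hpos.ne']
    apply mul_le_mul_of_nonneg_right _ (by positivity)
    exact_mod_cast hSK
  refine le_trans ?_ h7
  exact_mod_cast h5

theorem key_mgf (hK : Keyed O τ) {p : ℕ} (hp : ∀ x, M.p.eval (y x).length ≤ p) {l : ℝ}
    (hl : 0 ≤ l) :
    ∑ ω : (X → (Fin n → Bool)) × (X → Bool), Real.exp (l * ∑ x, gs M y O x ω) ≤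
      2 ^ Fintype.card X * (2 ^ n) ^ Fintype.card X * (Real.cosh l ^ Fintype.card X *
        (1 + Fintype.card X * p / 2 ^ n) ^ Fintype.card X) := by
  obtain ⟨K, hKd⟩ : ∃ K, K = Fintype.card X := ⟨_, rfl⟩
  have hs := fun S => gs_sum (M := M) (y := y) hK hp S
  rw [← hKd] at hs ⊢
  have h1 : ∀ ω : (X → (Fin n → Bool)) × (X → Bool), Real.exp (l * ∑ x, gs M y O x ω) =
      ∑ S ∈ (Finset.univ : Finset X).powerset,
        (Real.sinh l ^ S.card * Real.cosh l ^ (Finset.univ \ S : Finset X).card) *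
          ∏ x ∈ S, gs M y O x ω := by
    intro ω
    rw [Finset.mul_sum, Real.exp_sum]
    have h2 : ∀ x, Real.exp (l * gs M y O x ω) = Real.sinh l * gs M y O x ω + Real.cosh l := by
      intro x
      rcases gs_abs (M := M) (y := y) (O := O) x ω with h | h
      · rw [h, mul_one, mul_one, add_comm, Real.cosh_add_sinh]
      · rw [h]
        have := Real.cosh_sub_sinh l
        rw [← sub_eq_iff_eq_add', mul_neg_one, mul_neg_one, ← this]
        ring
    rw [Finset.prod_congr rfl fun x _ => h2 x, Finset.prod_add]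
    refine Finset.sum_congr rfl fun S _ => ?_
    rw [Finset.prod_mul_distrib, Finset.prod_const, Finset.prod_const]
    ring
  rw [Finset.sum_congr rfl fun ω _ => h1 ω, Finset.sum_comm]
  have hsinh : 0 ≤ Real.sinh l := Real.sinh_nonneg_iff.2 hl
  have hcosh : 0 ≤ Real.cosh l := (Real.cosh_pos l).le
  have hle : Real.sinh l ≤ Real.cosh l := (Real.sinh_lt_cosh l).le
  have h3 : ∀ S ∈ (univ : Finset X).powerset,
      ∑ ω : (X → (Fin n → Bool)) × (X → Bool),
        (Real.sinh l ^ S.card * Real.cosh l ^ (Finset.univ \ S : Finset X).card) *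
          ∏ x ∈ S, gs M y O x ω ≤
      Real.cosh l ^ K * (2 ^ K * (2 ^ n) ^ K * (K * p / 2 ^ n) ^ S.card) := by
    intro S _
    rw [← Finset.mul_sum]
    refine (mul_le_mul_of_nonneg_left (hs S) (by positivity)).trans ?_
    apply mul_le_mul_of_nonneg_right _ (by positivity)
    have h4 : (Finset.univ \ S : Finset X).card = K - S.card := by
      rw [Finset.card_sdiff_of_subset (Finset.subset_univ S), Finset.card_univ, hKd]
    have hSK : S.card ≤ K := by rw [hKd]; exact Finset.card_le_univ S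
    rw [h4]
    calc Real.sinh l ^ S.card * Real.cosh l ^ (K - S.card)
        ≤ Real.cosh l ^ S.card * Real.cosh l ^ (K - S.card) :=
          mul_le_mul_of_nonneg_right (pow_le_pow_left₀ hsinh hle _) (by positivity)
      _ = Real.cosh l ^ K := by
          rw [← pow_add]
          congr 1
          omega
  refine (Finset.sum_le_sum h3).trans (le_of_eq ?_)
  rw [← Finset.mul_sum, ← Finset.mul_sum]
  have h5 := Finset.sum_pow_mul_eq_add_pow ((K : ℝ) * p / 2 ^ n) 1 (univ : Finset X)
  simp only [one_pow, mul_one] at h5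
  rw [h5, Finset.card_univ, ← hKd, add_comm ((K : ℝ) * p / 2 ^ n) 1]
  ring

open Classical in
theorem key_tail (hK : Keyed O τ) {p : ℕ} (hp : ∀ x, M.p.eval (y x).length ≤ p) {δ : ℝ}
    (hδ : 0 < δ) :
    ∑ ω : (X → (Fin n → Bool)) × (X → Bool), (if (1 / 2 + δ) * Fintype.card X <
      ∑ x, (if (M.out (O ω.1 ω.2) (y x) = some [true] ↔ ω.2 x = true) then (1 : ℝ) else 0)
        then (1 : ℝ) else 0) ≤
      2 ^ Fintype.card X * (2 ^ n) ^ Fintype.card X * Real.exp (-(2 * δ ^ 2 * Fintype.card X) +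
        Fintype.card X * (Fintype.card X * p / 2 ^ n)) := by
  have h1 : ∀ ω : (X → (Fin n → Bool)) × (X → Bool), (if (1 / 2 + δ) * Fintype.card X <
      ∑ x, (if (M.out (O ω.1 ω.2) (y x) = some [true] ↔ ω.2 x = true) then (1 : ℝ) else 0)
        then (1 : ℝ) else 0) ≤
      Real.exp (-(4 * δ ^ 2 * Fintype.card X)) * Real.exp (2 * δ * ∑ x, gs M y O x ω) := by
    intro ω
    split_ifs with h
    · rw [← Real.exp_add]
      refine Real.one_le_exp ?_
      have h2 : (∑ x, (if (M.out (O ω.1 ω.2) (y x) = some [true] ↔ ω.2 x = true)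
          then (1 : ℝ) else 0)) = ∑ x, (1 + gs M y O x ω) / 2 :=
        Finset.sum_congr rfl fun x _ => gs_ind (M := M) (y := y) (O := O) x ω
      rw [h2, ← Finset.sum_div, Finset.sum_add_distrib, Finset.sum_const, Finset.card_univ,
        nsmul_eq_mul, mul_one] at h
      nlinarith
    · positivity
  refine (Finset.sum_le_sum fun ω _ => h1 ω).trans ?_
  rw [← Finset.mul_sum]
  refine (mul_le_mul_of_nonneg_left (key_mgf hK hp (by positivity)) (Real.exp_pos _).le).trans ?_
  obtain ⟨K, hKd⟩ : ∃ K, K = Fintype.card X := ⟨_, rfl⟩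
  rw [← hKd]
  have h2 : Real.cosh (2 * δ) ^ K ≤ Real.exp (2 * δ ^ 2 * K) := by
    have h3 := Real.cosh_le_exp_half_sq (2 * δ)
    refine (pow_le_pow_left₀ (Real.cosh_pos _).le h3 _).trans ?_
    rw [← Real.exp_nat_mul]
    apply Real.exp_le_exp.2
    nlinarith
  have h3 : (1 + (K : ℝ) * p / 2 ^ n) ^ K ≤ Real.exp (K * (K * p / 2 ^ n)) := by
    have h4 : 1 + (K : ℝ) * p / 2 ^ n ≤ Real.exp (K * p / 2 ^ n) := by
      have := Real.add_one_le_exp ((K : ℝ) * p / 2 ^ n)
      linarith
    refine (pow_le_pow_left₀ (by positivity) h4 _).trans (le_of_eq ?_)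
    rw [← Real.exp_nat_mul]
  calc Real.exp (-(4 * δ ^ 2 * K)) * (2 ^ K * (2 ^ n) ^ K * (Real.cosh (2 * δ) ^ K *
        (1 + K * p / 2 ^ n) ^ K))
      ≤ Real.exp (-(4 * δ ^ 2 * K)) * (2 ^ K * (2 ^ n) ^ K * (Real.exp (2 * δ ^ 2 * K) *
        Real.exp (K * (K * p / 2 ^ n)))) := by
        apply mul_le_mul_of_nonneg_left _ (Real.exp_pos _).le
        apply mul_le_mul_of_nonneg_left _ (by positivity)
        exact mul_le_mul h2 h3 (by positivity) (Real.exp_pos _).le
    _ = 2 ^ K * (2 ^ n) ^ K * Real.exp (-(4 * δ ^ 2 * K) + (2 * δ ^ 2 * K +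
        K * (K * p / 2 ^ n))) := by
        rw [Real.exp_add, Real.exp_add]
        ring
    _ = _ := by
        congr 2
        ring

end Pool.Agent.W908.KS.JS
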