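import Pool.Agent.W908.J.J9
import Pool.Agent.W908.J.J10

/-! The exceptional blocks are hidden: one algorithm and one advice string. -/

set_option autoImplicit false

namespace Pool.Agent.W908.KS.JS

open Pool.Agent.NPC Pool.Agent.H620R2.Gauge Finset H568R2 Pool.Agent.H676
open Pool.Agent.W908.SP (mem_strsOf' card_strsOf' Ex_owr idx_inj Ex_unif_av unif_nn unif_sm)
open Pool.Agent.H591R3.PHG.Proj (owr owr_e owr_off owr_owr)
open Pool.Agent.W908.PS (pwd ppos length_ppos length_pwd idx_lt_pow pe pe_inj pwd_on orc_off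
  Ex_comm qq qb qb_spec out_congr)
open Pool.Agent.W908.HS (ppos_head)

/-- the exceptional block of the input `x` -/
def zj (w : List Bool) {n : ℕ} (x : Fin n → Bool) : List Bool := List.ofFn x ++ w

theorem length_zj (w : List Bool) {n : ℕ} (x : Fin n → Bool) :
    (zj w x).length = n + w.length := by
  unfold zj
  rw [List.length_append, List.length_ofFn]

theorem zj_inj (w : List Bool) {n : ℕ} :
    Function.Injective (zj w : (Fin n → Bool) → List Bool) := by
  intro x x' h
  exact List.ofFn_injective (List.append_cancel_right h)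

/-- the strings of the free positions -/
def st (w : List Bool) (n : ℕ) : ((Fin n → Bool) × Fin (2 * n)) ⊕ (Fin n → Bool) → List Bool
  | Sum.inl g => kp (zj w g.1) g.2.val
  | Sum.inr x => kp (zj w x) (2 * n)

theorem st_inj (w : List Bool) (n : ℕ) : Function.Injective (st w n) := by
  intro g g' h
  match g, g' with
  | Sum.inl g, Sum.inl g' =>
    obtain ⟨h1, h2⟩ := kp_inj h
    exact congrArg Sum.inl (Prod.ext (zj_inj w h1) (Fin.ext h2))
  | Sum.inl g, Sum.inr x =>
    have := (kp_inj h).2
    have := g.2.2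
    omega
  | Sum.inr x, Sum.inl g =>
    have := (kp_inj h).2
    have := g.2.2
    omega
  | Sum.inr x, Sum.inr x' =>
    exact congrArg Sum.inr (zj_inj w (kp_inj h).1)

theorem length_st (w : List Bool) (n : ℕ) (g : ((Fin n → Bool) × Fin (2 * n)) ⊕ (Fin n → Bool)) :
    (st w n g).length ≤ 4 * n + (n + w.length) + 3 := by
  match g with
  | Sum.inl g =>
    unfold st
    have := g.2.2
    rw [length_kp, length_zj]
    omega
  | Sum.inr x =>
    unfold st
    rw [length_kp, length_zj]
    omega

/-- the positions -/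
def se (w : List Bool) (n : ℕ) {N : ℕ} (hN : 2 ^ (4 * n + (n + w.length) + 4) ≤ N)
    (g : ((Fin n → Bool) × Fin (2 * n)) ⊕ (Fin n → Bool)) : Fin N :=
  ⟨idx (st w n g), (idx_lt_pow (length_st w n g)).trans_le hN⟩

theorem se_inj (w : List Bool) (n : ℕ) {N : ℕ} (hN : 2 ^ (4 * n + (n + w.length) + 4) ≤ N) :
    Function.Injective (se w n hN) := by
  intro g g' h
  exact st_inj w n (idx_inj (congrArg Fin.val h))

/-- the free bits -/
def fb {X : Type} {n : ℕ} (ω : (X → (Fin n → Bool)) × (X → Bool)) : (X × Fin n) ⊕ X → Bool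
  | Sum.inl g => ω.1 g.1 g.2
  | Sum.inr x => !(ω.2 x)

/-- the free bits, as an equivalence -/
def fbE {X : Type} {n : ℕ} : (X → (Fin n → Bool)) × (X → Bool) ≃ ((X × Fin n) ⊕ X → Bool) where
  toFun := fb
  invFun v := (fun x i => v (Sum.inl (x, i)), fun x => !(v (Sum.inr x)))
  left_inv ω := by
    refine Prod.ext rfl ?_
    funext x
    exact Bool.not_not _
  right_inv v := by
    funext g
    match g with
    | Sum.inl g => rfl
    | Sum.inr x => exact Bool.not_not _

open Classical in
/-- the test in a question -/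
noncomputable def tau (w : List Bool) (n T : ℕ) (q : List Bool) :
    Option ((Fin n → Bool) × (Fin (2 * n) → Bool)) :=
  if h : ∃ p : (Fin n → Bool) × (Fin (2 * n) → Bool), ∃ c t, q = false :: true :: t ∧
    q.length < T ∧ (unpair t).1 = c :: List.ofFn p.2 ∧ (unpair t).2 = zj w p.1
  then some h.choose else none

theorem exc_zj {P : ℕ → List Bool} {n T : ℕ} (hn : n < T) (hP : (P n).length = n)
    (x : Fin n → Bool) : Exc P T (zj (P n) x) := by
  refine ⟨n, hn, ?_, ?_⟩
  · rw [length_zj, hP]
    omega
  · unfold zj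
    rw [List.drop_left' (List.length_ofFn ..)]

open Classical in
theorem keyed {N n T ℓ' : ℕ} (hTl : T ≤ 2 ^ ℓ') (hln : ℓ' ≤ n) (hnT : n < T)
    {w : List Bool} (hN : 2 ^ (4 * n + (n + w.length) + 4) ≤ N)
    (hN2 : 2 ^ (3 * n + 2) ≤ N) (a : Fin N → Bool) (z : Fin n → Bool) (hw : w = List.ofFn z) :
    Keyed (fun (k : (Fin n → Bool) → (Fin (2 * n) → Bool)) (b : (Fin n → Bool) → Bool) =>
      wd (orc N (owr (pe hN2) (owr (se w n hN) a (fb (k, b))) z)) T) (tau w n T) ∧
    ∀ (k : (Fin n → Bool) → (Fin (2 * n) → Bool)) (b : (Fin n → Bool) → Bool) (x : Fin n → Bool),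
      orc N (owr (pe hN2) (owr (se w n hN) a (fb (k, b))) z) (kp (zj w x) (2 * n)) = !(b x) := by
  have hwl : w.length = n := by rw [hw, List.length_ofFn]
  have hzl : ∀ x : Fin n → Bool, (zj w x).length = 2 * n := fun x => by
    rw [length_zj, hwl]
    omega
  obtain ⟨A, hA⟩ : ∃ A : ((Fin n → Bool) → (Fin (2 * n) → Bool)) → ((Fin n → Bool) → Bool) →
    Oracle, A = fun k b => orc N (owr (pe hN2) (owr (se w n hN) a (fb (k, b))) z) := ⟨_, rfl⟩
  have hA' : ∀ k b, orc N (owr (pe hN2) (owr (se w n hN) a (fb (k, b))) z) = A k b := by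
    intro k b
    rw [hA]
  have hon : ∀ g k b, A k b (st w n g) = fb (k, b) g := by
    intro g k b
    rw [hA]
    have h1 : ∀ i : Fin n, st w n g ≠ ppos n i := by
      intro i h
      obtain ⟨t, ht⟩ := ppos_head n i
      rw [ht] at h
      match g with
      | Sum.inl g => simp [st, kp] at h
      | Sum.inr x => simp [st, kp] at h
    beta_reduce
    rw [orc_off hN2 _ _ h1]
    unfold orc
    rw [dif_pos (show idx (st w n g) < N from (se w n hN g).2)]
    exact owr_e (se_inj w n hN) a _ g
  have hoff : ∀ s, (∀ g, s ≠ st w n g) → ∀ k b k' b', A k b s = A k' b' s := by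
    intro s hs k b k' b'
    rw [hA]
    beta_reduce
    unfold orc
    split_ifs with h
    · by_cases h1 : ∃ i', pe hN2 i' = ⟨idx s, h⟩
      · obtain ⟨i', hi'⟩ := h1
        rw [← hi', owr_e (pe_inj hN2), owr_e (pe_inj hN2)]
      · have h2 : ¬ ∃ g, se w n hN g = ⟨idx s, h⟩ := by
          rintro ⟨g, hg⟩
          exact hs g (idx_inj (congrArg Fin.val hg)).symm
        rw [owr_off _ _ h1, owr_off _ _ h1, owr_off _ _ h2, owr_off _ _ h2]
    · rfl
  have hP : ∀ k b k' b', pwd (A k b) = pwd (A k' b') := by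
    intro k b k' b'
    funext m'
    unfold pwd
    refine List.map_congr_left fun i _ => hoff _ (fun g h => ?_) _ _ _ _
    obtain ⟨t, ht⟩ := ppos_head m' i
    rw [ht] at h
    match g with
    | Sum.inl g => simp [st, kp] at h
    | Sum.inr x => simp [st, kp] at h
  have hPm : ∀ k b, pwd (A k b) n = w := by
    intro k b
    rw [hw]
    rw [hA]
    exact pwd_on hN2 _ z
  have hstar : ∀ k b g, Star (pwd (A k b)) ℓ' (st w n g) := by
    intro k b g
    have h1 : ∀ (x : Fin n → Bool) (i : ℕ), Star (pwd (A k b)) ℓ' (kp (zj w x) i) := by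
      intro x i
      refine ⟨n, hln, ?_, ?_⟩
      · rw [length_kp, hzl]
        omega
      · rw [hPm, core_kp]
        unfold zj
        exact ((List.take_prefix _ _).isInfix).trans (List.suffix_append _ _).isInfix
    match g with
    | Sum.inl g => exact h1 _ _
    | Sum.inr x => exact h1 _ _
  have hwd : ∀ k b k' b', wd (A k b) T = oh (pwd (A k' b')) T T (A k b) := by
    intro k b k' b'
    unfold wd
    rw [hP k b k' b']
  refine ⟨⟨?_, ?_⟩, fun k b x => ?_⟩
  · intro q hq k b k' b'
    simp only [hA']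
    rw [hwd k b k' b', hwd k' b' k' b']
    match q with
    | [] => rw [oh_nil, oh_nil]
    | true :: q =>
      refine oh_star hTl (fun s hs => hoff s (fun g hg => hs ?_) _ _ _ _) q
      rw [hg]
      exact hstar _ _ _
    | false :: s =>
      by_cases hl : (false :: s).length < T
      swap
      · rw [oh_ge (by omega), oh_ge (by omega)]
      rw [oh_data hl, oh_data hl]
      match s with
      | [] => rfl
      | false :: s =>
        refine hoff _ (fun g h => ?_) _ _ _ _
        match g with
        | Sum.inl g => simp [st, kp] at h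
        | Sum.inr x => simp [st, kp] at h
      | true :: t =>
        refine kans_congr Iff.rfl fun hwl' i hi => hoff _ (fun g hg => ?_) _ _ _ _
        have hz : ∃ x : Fin n → Bool, (unpair t).2 = zj w x := by
          match g with
          | Sum.inl g => exact ⟨_, (kp_inj hg).1⟩
          | Sum.inr x => exact ⟨_, (kp_inj hg).1⟩
        obtain ⟨x, hx⟩ := hz
        rw [hx, hzl] at hwl'
        match hu : (unpair t).1 with
        | [] => rw [hu] at hwl'; simp at hwl'
        | c :: w' =>
          rw [hu, List.length_cons, Nat.add_right_cancel_iff] at hwl'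
          have hex : ∃ p : (Fin n → Bool) × (Fin (2 * n) → Bool), ∃ c t',
              false :: true :: t = false :: true :: t' ∧ (false :: true :: t).length < T ∧
              (unpair t').1 = c :: List.ofFn p.2 ∧ (unpair t').2 = zj w p.1 := by
            refine ⟨(x, fun i => w'.get (i.cast hwl'.symm)), c, t, rfl, hl, ?_, hx⟩
            rw [hu]
            congr 1
            refine List.ext_getElem (by rw [List.length_ofFn, hwl']) fun i h3 h4 => ?_
            rw [List.getElem_ofFn]
            rfl
          unfold tau at hq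
          rw [dif_pos hex] at hq
          simp at hq
  · intro q x u hτ
    unfold tau at hτ
    split_ifs at hτ with hex
    have hch := hex.choose_spec
    rw [Option.some.injEq] at hτ
    rw [hτ] at hch
    obtain ⟨c, t, rfl, hl, h1, h2⟩ := hch
    refine ⟨fun v => !v, fun k b => ?_⟩
    simp only [hA']
    rw [hwd k b k b, oh_data hl]
    show kans (pwd (A k b)) T (A k b) (unpair t).1 (unpair t).2 = _
    rw [h1, h2]
    show (decide (List.ofFn u = key (A k b) (zj w x)) &&
      (decide (¬ Exc (pwd (A k b)) T (zj w x)) ||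
        A k b (kp (zj w x) (zj w x).length))) = _
    have e0 : Exc (pwd (A k b)) T (zj w x) := by
      have := exc_zj (P := pwd (A k b)) hnT (length_pwd _ _) x
      rwa [hPm] at this
    have e1 : key (A k b) (zj w x) = List.ofFn (k x) := by
      unfold key
      rw [hzl]
      refine List.ext_getElem (by simp) fun i h3 h4 => ?_
      rw [List.getElem_map, List.getElem_range, List.getElem_ofFn]
      rw [List.length_map, List.length_range] at h3
      exact hon (Sum.inl (x, ⟨i, h3⟩)) k b
    have e2 : A k b (kp (zj w x) (zj w x).length) = !(b x) := by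
      rw [hzl]
      exact hon (Sum.inr x) k b
    rw [e1, e2, decide_eq_false (not_not.2 e0), Bool.false_or]
    congr 1
    rw [decide_eq_decide]
    constructor
    · intro h
      exact (List.ofFn_injective h).symm
    · intro h
      rw [h]
  · rw [hA']
    exact hon (Sum.inr x) k b

open Classical in
/-- the number of the inputs for which the algorithm is right -/
noncomputable def AG (W : Oracle) (M : Alg) (T n : ℕ) (h : List Bool) : ℝ :=
  ∑ x : Fin n → Bool, if (M.out (wd W T) (pairBits (List.ofFn x) h) = some [true] ↔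
    W (kp (zj (pwd W n) x) (2 * n)) = false) then (1 : ℝ) else 0

open Classical in
theorem adv_prob {N n T ℓ' p : ℕ} (M : Alg) (h : List Bool) (hTl : T ≤ 2 ^ ℓ') (hln : ℓ' ≤ n)
    (hnT : n < T) (hp : M.p.eval (2 * n + 1 + h.length) ≤ p) (hN : 2 ^ (6 * n + 4) ≤ N) {δ : ℝ}
    (hδ : 0 < δ) : Ex unif (fun a : Fin N → Bool =>
      if (1 / 2 + δ) * 2 ^ n < AG (orc N a) M T n h then (1 : ℝ) else 0) ≤
      Real.exp (-(2 * δ ^ 2 * 2 ^ n) + p) := by
  have hN2 : 2 ^ (3 * n + 2) ≤ N := (Nat.pow_le_pow_right (by norm_num) (by omega)).trans hN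
  rw [Ex_owr (pe hN2) (pe_inj hN2), Ex_comm]
  refine (Ex_mono unif_nn (G := fun _ => Real.exp (-(2 * δ ^ 2 * 2 ^ n) + p)) fun z => ?_).trans
    (le_of_eq (Ex_const unif_sm _))
  obtain ⟨w, hw⟩ : ∃ w, w = List.ofFn z := ⟨_, rfl⟩
  have hwl : w.length = n := by rw [hw, List.length_ofFn]
  have hN3 : 2 ^ (4 * n + (n + w.length) + 4) ≤ N :=
    (Nat.pow_le_pow_right (by norm_num) (by omega)).trans hN
  rw [Ex_owr (se w n hN3) (se_inj w n hN3)]
  refine (Ex_mono unif_nn (G := fun _ => Real.exp (-(2 * δ ^ 2 * 2 ^ n) + p)) fun a => ?_).trans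
    (le_of_eq (Ex_const unif_sm _))
  obtain ⟨hK, hb⟩ := keyed hTl hln hnT hN3 hN2 a z hw
  have h1 := key_tail (M := M) (y := fun x : Fin n → Bool => pairBits (List.ofFn x) h) hK (p := p)
    (fun x => by
      refine le_trans (eval_mono _ ?_) hp
      rw [A2.length_pairBits, List.length_ofFn]
      omega) hδ
  rw [Ex_unif_av, ← (fbE (X := Fin n → Bool) (n := 2 * n)).sum_comp]
  have hX : (Fintype.card (Fin n → Bool) : ℝ) = 2 ^ n := by simp
  have e1 : ∀ ω : ((Fin n → Bool) → (Fin (2 * n) → Bool)) × ((Fin n → Bool) → Bool),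
      (if (1 / 2 + δ) * 2 ^ n < AG (orc N (owr (pe hN2) (owr (se w n hN3) a (fbE ω)) z)) M T n h
        then (1 : ℝ) else 0) =
      if (1 / 2 + δ) * Fintype.card (Fin n → Bool) < ∑ x, (if (M.out
        (wd (orc N (owr (pe hN2) (owr (se w n hN3) a (fb (ω.1, ω.2))) z)) T)
        (pairBits (List.ofFn x) h) = some [true] ↔ ω.2 x = true) then (1 : ℝ) else 0)
          then (1 : ℝ) else 0 := by
    intro ω
    rw [hX]
    congr 1
    refine propext ?_
    unfold AG
    rw [pwd_on hN2, ← hw]
    have e2 : ∀ x : Fin n → Bool, (orc N (owr (pe hN2) (owr (se w n hN3) a (fbE ω)) z)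
        (kp (zj w x) (2 * n)) = false) ↔ ω.2 x = true := by
      intro x
      have := hb ω.1 ω.2 x
      show (orc N (owr (pe hN2) (owr (se w n hN3) a (fb (ω.1, ω.2))) z)
        (kp (zj w x) (2 * n)) = false) ↔ _
      rw [this]
      simp
    simp only [e2]
    rfl
  rw [Finset.sum_congr rfl fun ω _ => e1 ω]
  have hX' : Fintype.card (Fin n → Bool) = 2 ^ n := by simp
  have hG : Fintype.card (((Fin n → Bool) × Fin (2 * n)) ⊕ (Fin n → Bool)) =
      2 ^ n * (2 * n) + 2 ^ n := by
    simp
  rw [hG, div_le_iff₀ (by positivity)]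
  refine h1.trans (le_of_eq ?_)
  rw [hX']
  push_cast
  have e3 : (2 : ℝ) ^ n * (2 ^ n * p / 2 ^ (2 * n)) = p := by
    have : (2 : ℝ) ^ (2 * n) = 2 ^ n * 2 ^ n := by rw [← pow_add]; congr 1; omega
    rw [this]
    field_simp
  rw [e3, mul_comm]
  congr 1
  rw [← pow_mul, ← pow_add]
  congr 1
  ring

end Pool.Agent.W908.KS.JS
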