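import Pool.Agent.W908.J.J11
import Pool.Agent.W908.H.H14

/-! A language in `Σ_2` that is exponentially hard on average. -/

set_option autoImplicit false

namespace Pool.Agent.W908.KS.JS

open Pool.Agent.NPC Pool.Agent.H620R2.Gauge Pool.Agent.H622R2 Finset H568R2 Pool.Agent.H676
open Pool.Agent.W908.SP (mem_strsOf' card_strsOf' unif_nn unif_sm)
open Pool.Agent.W908.PS (Rare pre_local qb qb_spec out_congr poly_le_pow pwd pwd_local length_pwd)
open Pool.Agent.W908.HS (big_d ExpHardOnAverage)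
open Pool.Agent.H591R3.PHG (IsSig)

/-- the language -/
def LJ (W : Oracle) : Set (List Bool) :=
  {x | W (kp (x ++ pwd W x.length) (2 * x.length)) = false}

/-- the question of the verifier -/
def vq (y : List Bool) : List (List Bool) :=
  [false :: true :: pairBits (true :: (unpair y).1)
    ((unpair (unpair y).2).2 ++ (unpair (unpair y).2).1)]

theorem poly_vq : Poly vq := by
  have h1 : Poly (fun y : List Bool => unpair (unpair y).2) :=
    poly_unpair.comp (Poly.snd poly_unpair)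
  exact Poly.cons (Poly.cons (NPC.Poly.const false) (Poly.cons (NPC.Poly.const true)
    (poly_pairBits (Poly.cons (NPC.Poly.const true) (Poly.fst poly_unpair))
      (Poly.append (Poly.snd h1) (Poly.fst h1))))) (NPC.Poly.const [])

/-- the verifier, from the answers -/
def vrf (p : List Bool × List Bool) : List Bool :=
  if (unpair (unpair p.1).2).1.length = (unpair (unpair p.1).2).2.length ∧ p.2 = [false]
  then [true] else []

theorem poly_vrf : Poly vrf := by
  have h1 : Poly (fun p : List Bool × List Bool => unpair (unpair p.1).2) :=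
    poly_unpair.comp (Poly.snd (poly_unpair.comp (Poly.fst Poly.id)))
  exact Poly.ite (Poly.decide_and (Poly.decide_eq (Poly.length (Poly.fst h1))
    (Poly.length (Poly.snd h1))) (Poly.decide_eq (Poly.snd Poly.id) (NPC.Poly.const _)))
    (NPC.Poly.const _) (NPC.Poly.const _)

theorem OJ_ans {W : Oracle} (w x i : List Bool) (hi : i.length = x.length) :
    OJ W (false :: true :: pairBits (true :: w) (x ++ i)) =
      (decide (w = key W (x ++ i)) && (decide (i ≠ pwd W x.length) ||
        W (kp (x ++ i) (2 * x.length)))) := by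
  classical
  rw [fr_OJ_key, unpair_pairBits]
  show (decide (w = key W (x ++ i)) && (decide (¬ Exc (pwd W) _ (x ++ i)) ||
    W (kp (x ++ i) (x ++ i).length))) = _
  have e1 : (x ++ i).length = 2 * x.length := by
    rw [List.length_append, hi]
    omega
  have e2 : Exc (pwd W) ((pairBits (true :: w) (x ++ i)).length + 3) (x ++ i) ↔
      i = pwd W x.length := by
    constructor
    · rintro ⟨m, -, h2, h3⟩
      have hm : m = x.length := by omega
      subst hm
      rw [← h3, List.drop_left' rfl]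
    · intro h
      refine ⟨x.length, ?_, e1, ?_⟩
      · rw [A2.length_pairBits, List.length_append]
        omega
      · rw [List.drop_left' rfl]
        exact h
  simp only [e2, e1]

theorem isSig_LJ (W : Oracle) : IsSig (OJ W) 2 (LJ W) := by
  refine ⟨fun y => vrf (y, (vq y).map (OJ W)), 2 * Polynomial.X,
    IsFP.tt poly_vq poly_vrf, fun x => ?_⟩
  have hV : ∀ i j : List Bool, (vrf (pairBits j (pairBits i x),
      (vq (pairBits j (pairBits i x))).map (OJ W)) = [true]) ↔ (i.length = x.length ∧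
        OJ W (false :: true :: pairBits (true :: j) (x ++ i)) = false) := by
    intro i j
    unfold vrf vq
    simp only [unpair_pairBits, List.map_cons, List.map_nil, List.cons.injEq, and_true]
    split_ifs with h
    · simp [h]
    · simp [h]
  have hm : (2 * Polynomial.X : Polynomial ℕ).eval x.length = 2 * x.length := by simp
  show _ ↔ ∃ i : List Bool, i.length ≤ _ ∧ ∀ j : List Bool, j.length ≤ _ →
    (vrf (pairBits j (pairBits i x), (vq (pairBits j (pairBits i x))).map (OJ W)) = [true])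
  simp only [hV, hm]
  unfold LJ
  rw [Set.mem_ofPred_eq]
  constructor
  · intro h
    refine ⟨pwd W x.length, by rw [length_pwd]; omega, fun j _ => ⟨length_pwd _ _, ?_⟩⟩
    rw [OJ_ans j x _ (length_pwd _ _), h]
    simp
  · rintro ⟨i, -, h⟩
    have hi : i.length = x.length := (h [] (by simp)).1
    have h1 := (h (key W (x ++ i)) (by
      rw [length_key, List.length_append]
      omega)).2
    rw [OJ_ans _ x i hi] at h1
    simp only [decide_true, Bool.true_and, Bool.or_eq_false_iff, decide_eq_false_iff_not,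
      ne_eq, not_not] at h1
    rw [← h1.1]
    exact h1.2

theorem AG_local {W W' : Oracle} {M : Alg} {T n : ℕ} {h : List Bool} (hT : 2 * n + 1 ≤ T)
    (hW : ∀ q : List Bool, q.length ≤ 3 * T + 2 → W q = W' q) : AG W M T n h = AG W' M T n h := by
  classical
  unfold AG
  refine Finset.sum_congr rfl fun x _ => ?_
  have h1 : pwd W n = pwd W' n := pwd_local hW (by omega)
  have h2 : W (kp (zj (pwd W' n) x) (2 * n)) = W' (kp (zj (pwd W' n) x) (2 * n)) := by
    refine hW _ ?_
    rw [length_kp, length_zj, length_pwd]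
    omega
  rw [wd_local hW, h1, h2]

/-- the language is exponentially hard on average for the algorithm, with advice -/
def GoodX (M : Alg) (W : Oracle) : Prop :=
  ∃ d : ℕ, 0 < d ∧ ∀ n, d ≤ n → ∀ h : List Bool, h.length ≤ 2 ^ (n / d) →
    (Set.ncard {x : Fin n → Bool | (M.out (OJ W) (pairBits (List.ofFn x) h) = some [true] ↔
      List.ofFn x ∈ LJ W)} : ℝ) ≤ (1 / 2 + (1 / 2) ^ (n / d)) * 2 ^ n

theorem ncard_eq_AG {W : Oracle} {M : Alg} {T n : ℕ} {h : List Bool}
    (hT : (qb M).eval (2 * n + 1 + h.length) < T) :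
    (Set.ncard {x : Fin n → Bool | (M.out (OJ W) (pairBits (List.ofFn x) h) = some [true] ↔
      List.ofFn x ∈ LJ W)} : ℝ) = AG W M T n h := by
  classical
  unfold AG
  rw [Finset.sum_boole, Set.ncard_eq_toFinset_card']
  congr 2
  ext x
  have hl : (pairBits (List.ofFn x) h).length = 2 * n + 1 + h.length := by
    rw [A2.length_pairBits, List.length_ofFn]
    omega
  have h1 := (out_congr M (O := OJ W) (O' := wd W T) (x := pairBits (List.ofFn x) h) fun q hq => by
    refine (OJ_eq ?_).symm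
    have := qb_spec M _ _ q hq
    rw [hl] at this
    omega).1
  have h2 : List.ofFn x ∈ LJ W ↔ W (kp (zj (pwd W n) x) (2 * n)) = false := by
    unfold LJ zj
    rw [Set.mem_ofPred_eq, List.length_ofFn]
  simp [h1, h2]

open Classical in
theorem x_event {n m K T N : ℕ} (M : Alg) (hK : 0 < K) (hn : 1 ≤ n) (hm : 16 * m ≤ n)
    (hT : T ≤ 2 ^ (n / 4)) (hnT : n < T) (hp : M.p.eval (2 * n + 1 + 2 ^ m) ≤ 2 ^ (n / 4))
    (hH : 2 * 2 ^ m ≤ 2 ^ (n / 4)) (hQ : K * ((n + 1) * (n + 2)) ≤ 2 ^ (n / 4))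
    (hN : 2 ^ (6 * n + 4) ≤ N) :
    Ex unif (fun a : Fin N → Bool => if ∃ c ≤ 2 ^ m, ∃ h ∈ strsOf c,
      (1 / 2 + (1 / 2) ^ m) * 2 ^ n < AG (orc N a) M T n h then (1 : ℝ) else 0) ≤
      1 / (K * ((n + 1) * (n + 2))) := by
  obtain ⟨H, hHd⟩ : ∃ H, H = 2 ^ m := ⟨_, rfl⟩
  rw [← hHd] at hH hp ⊢
  obtain ⟨δ, hδ⟩ : ∃ δ : ℝ, δ = (1 / 2) ^ m := ⟨_, rfl⟩
  have hδ0 : 0 < δ := by rw [hδ]; positivity
  rw [← hδ]
  have h1 : ∀ a : Fin N → Bool, (if ∃ c ≤ H, ∃ h ∈ strsOf c,
      (1 / 2 + δ) * 2 ^ n < AG (orc N a) M T n h then (1 : ℝ) else 0) ≤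
      ∑ c ∈ range (H + 1), ∑ h ∈ strsOf c,
        if (1 / 2 + δ) * 2 ^ n < AG (orc N a) M T n h then (1 : ℝ) else 0 := by
    intro a
    have hnn : ∀ h : List Bool, (0 : ℝ) ≤ if (1 / 2 + δ) * 2 ^ n < AG (orc N a) M T n h
      then (1 : ℝ) else 0 := fun h => by split_ifs <;> norm_num
    by_cases hE : ∃ c ≤ H, ∃ h ∈ strsOf c, (1 / 2 + δ) * 2 ^ n < AG (orc N a) M T n h
    · rw [if_pos hE]
      obtain ⟨c, hc, h, hh, hj⟩ := hE
      refine le_trans ?_ (Finset.single_le_sum (f := fun c => ∑ h ∈ strsOf c,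
        if (1 / 2 + δ) * 2 ^ n < AG (orc N a) M T n h then (1 : ℝ) else 0)
        (fun c _ => Finset.sum_nonneg fun h _ => hnn h)
        (Finset.mem_range.2 (by omega : c < H + 1)))
      refine le_trans ?_ (Finset.single_le_sum (f := fun h =>
        if (1 / 2 + δ) * 2 ^ n < AG (orc N a) M T n h then (1 : ℝ) else 0)
        (fun h _ => hnn h) hh)
      rw [if_pos hj]
    · rw [if_neg hE]
      exact Finset.sum_nonneg fun c _ => Finset.sum_nonneg fun h _ => hnn h
  refine (Ex_mono unif_nn h1).trans ?_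
  rw [Ex_sum]
  have hn4 : n / 4 + 1 ≤ n - n / 4 := by omega
  obtain ⟨p, hpd⟩ : ∃ p, p = 2 ^ (n / 4) := ⟨_, rfl⟩
  rw [← hpd] at hp
  have h2 : ∀ c ∈ range (H + 1), Ex unif (fun a : Fin N → Bool => ∑ h ∈ strsOf c,
      if (1 / 2 + δ) * 2 ^ n < AG (orc N a) M T n h then (1 : ℝ) else 0) ≤
      2 ^ H * Real.exp (-(2 * δ ^ 2 * 2 ^ n) + p) := by
    intro c hc
    rw [Finset.mem_range, Nat.lt_succ_iff] at hc
    rw [Ex_sum]
    have h3 : ∀ h ∈ strsOf c, Ex unif (fun a : Fin N → Bool =>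
        if (1 / 2 + δ) * 2 ^ n < AG (orc N a) M T n h then (1 : ℝ) else 0) ≤
        Real.exp (-(2 * δ ^ 2 * 2 ^ n) + p) := by
      intro h hh
      rw [mem_strsOf'] at hh
      refine adv_prob M h hT (by omega) hnT ?_ hN hδ0
      have h4 : M.p.eval (2 * n + 1 + h.length) ≤ M.p.eval (2 * n + 1 + H) :=
        eval_mono _ (by omega)
      omega
    refine (Finset.sum_le_sum h3).trans ?_
    rw [Finset.sum_const, nsmul_eq_mul, card_strsOf']
    apply mul_le_mul_of_nonneg_right _ (Real.exp_pos _).le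
    push_cast
    exact pow_le_pow_right₀ (by norm_num) hc
  refine (Finset.sum_le_sum h2).trans ?_
  rw [Finset.sum_const, Finset.card_range, nsmul_eq_mul]
  have h3 : ((H + 1 : ℕ) : ℝ) ≤ 2 ^ H := by
    have : H + 1 ≤ 2 ^ H := Nat.lt_two_pow_self
    exact_mod_cast this
  have h4 : (2 : ℝ) ^ H ≤ Real.exp H := by
    have h5 : (2 : ℝ) ≤ Real.exp 1 := by
      have := Real.add_one_le_exp (1 : ℝ)
      linarith
    calc (2 : ℝ) ^ H ≤ Real.exp 1 ^ H := pow_le_pow_left₀ (by norm_num) h5 _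
      _ = Real.exp H := by rw [← Real.exp_nat_mul, mul_one]
  have hexp0 := (Real.exp_pos (-(2 * δ ^ 2 * 2 ^ n) + p)).le
  have hH0 := (Real.exp_pos (H : ℝ)).le
  have h2n : (0 : ℝ) ≤ 2 ^ H := by positivity
  obtain ⟨E, hE⟩ : ∃ E : ℝ, E = 2 ^ (n / 4) := ⟨_, rfl⟩
  have hE1 : 0 < E := by rw [hE]; positivity
  have hpE : (p : ℝ) = E := by
    rw [hE, hpd]
    push_cast
    rfl
  have h5 : 2 * E ≤ δ ^ 2 * 2 ^ n := by
    have e1 : δ ^ 2 * 2 ^ n = 2 ^ (n - 2 * m) := by
      rw [hδ, ← pow_mul, mul_comm m 2, one_div, inv_pow, inv_mul_eq_div,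
        div_eq_iff (by positivity), ← pow_add]
      congr 1
      omega
    rw [e1, hE, ← pow_succ']
    exact pow_le_pow_right₀ (by norm_num) (by omega)
  have h6 : (2 * H : ℝ) ≤ E := by
    rw [hE]
    exact_mod_cast hH
  calc ((H + 1 : ℕ) : ℝ) * (2 ^ H * Real.exp (-(2 * δ ^ 2 * 2 ^ n) + p))
      ≤ Real.exp H * (Real.exp H * Real.exp (-(2 * δ ^ 2 * 2 ^ n) + p)) := by
        apply mul_le_mul (h3.trans h4) _ (by positivity) hH0
        exact mul_le_mul_of_nonneg_right h4 hexp0
    _ = Real.exp (H + (H + (-(2 * δ ^ 2 * 2 ^ n) + p))) := by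
        rw [← Real.exp_add, ← Real.exp_add]
    _ ≤ Real.exp (-E) := by
        apply Real.exp_le_exp.2
        rw [hpE]
        nlinarith
    _ ≤ 1 / (K * ((n + 1) * (n + 2))) := by
        rw [Real.exp_neg, ← one_div]
        apply one_div_le_one_div_of_le
        · have : (0 : ℝ) < K := by exact_mod_cast hK
          positivity
        · have h7 : (K : ℝ) * ((n + 1) * (n + 2)) ≤ E := by
            rw [hE]
            exact_mod_cast hQ
          have := Real.add_one_le_exp E
          linarith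

theorem rare_goodX (M : Alg) : Rare {W | ¬ GoodX M W} := by
  classical
  intro K hK
  obtain ⟨Q, hQ⟩ : ∃ Q : Polynomial ℕ, Q = (qb M + 2 * Polynomial.X + 2) + M.p +
      2 * Polynomial.X + Polynomial.C K * ((Polynomial.X + 1) * (Polynomial.X + 2)) := ⟨_, rfl⟩
  obtain ⟨d, hd16, hd⟩ := big_d Q
  have hQe : ∀ y, Q.eval y = ((qb M).eval y + 2 * y + 2) + M.p.eval y + 2 * y +
      K * ((y + 1) * (y + 2)) := by
    intro y
    rw [hQ]
    simp
  obtain ⟨T, hT⟩ : ∃ T : ℕ → ℕ, T = fun n => (qb M).eval (2 * n + 1 + 2 ^ (n / d)) +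
    2 * (2 * n + 1 + 2 ^ (n / d)) + 2 := ⟨_, rfl⟩
  have hTe : ∀ n, T n = (qb M).eval (2 * n + 1 + 2 ^ (n / d)) +
    2 * (2 * n + 1 + 2 ^ (n / d)) + 2 := fun n => by rw [hT]
  refine ⟨fun n => 2 ^ (3 * T n + 2 + 1), fun n a => d ≤ n ∧ ∃ c ≤ 2 ^ (n / d), ∃ h ∈ strsOf c,
      (1 / 2 + (1 / 2) ^ (n / d)) * 2 ^ n < AG (orc _ a) M (T n) n h, fun n => ?_,
      fun W hW => ?_⟩
  · by_cases hn : d ≤ n
    · have h := hd n hn
      rw [hQe] at h
      have hpos : 0 < 2 ^ (n / d) := by positivity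
      obtain ⟨y, hy⟩ : ∃ y, y = 2 * n + 1 + 2 ^ (n / d) := ⟨_, rfl⟩
      have hTn := hTe n
      have hyn : n ≤ y := by omega
      have hy2 : 2 ^ (n / d) ≤ y := by omega
      rw [← hy] at h hTn
      have hK2 : K * ((n + 1) * (n + 2)) ≤ K * ((y + 1) * (y + 2)) := by
        apply Nat.mul_le_mul_left
        apply Nat.mul_le_mul <;> omega
      have hTy : 2 * y + 2 ≤ T n := by omega
      have h1 := x_event (N := 2 ^ (3 * T n + 2 + 1)) (n := n) (m := n / d) (T := T n) M hK
        (by omega) (by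
          have : n / d ≤ n / 16 := Nat.div_le_div_left hd16 (by norm_num)
          omega) (by omega) (by omega) (by rw [← hy]; omega) (by omega) (by omega)
        (Nat.pow_le_pow_right (by norm_num) (by omega))
      simp only [hn, true_and]
      exact h1
    · simp only [hn, false_and, if_false]
      rw [Ex_const unif_sm]
      positivity
  · by_contra hcon
    push Not at hcon
    refine hW ⟨d, by omega, fun n hn h hh => ?_⟩
    have hTn := hTe n
    have h0 : (qb M).eval (2 * n + 1 + h.length) ≤ (qb M).eval (2 * n + 1 + 2 ^ (n / d)) :=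
      eval_mono _ (by omega)
    rw [ncard_eq_AG (T := T n) (by omega)]
    have h1 := hcon n hn h.length hh h (mem_strsOf _)
    rw [AG_local (W' := W) (by omega) (fun q hq => pre_local W le_rfl hq)] at h1
    exact h1

theorem exists_WJ : ∃ W : Oracle, (∀ M p G q c, GoodJ ⟨M, p, 1, 0⟩ G q c W) ∧
    ∀ M, GoodX M W := by
  have h1 := CC.poly_countable
  obtain ⟨W, hW⟩ := PS.exists_good
    (Θ := (Alg × Polynomial ℕ × Alg × Polynomial ℕ × ℕ) ⊕ Alg)
    (fun θ => match θ with
      | Sum.inl t => {W | ¬ GoodJ ⟨t.1, t.2.1, 1, 0⟩ t.2.2.1 t.2.2.2.1 t.2.2.2.2 W}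
      | Sum.inr M => {W | ¬ GoodX M W})
    (fun θ => match θ with
      | Sum.inl t => rare_goodJ rfl t.2.2.1 t.2.2.2.1 t.2.2.2.2
      | Sum.inr M => rare_goodX M)
  refine ⟨W, fun M p G q c => ?_, fun M => ?_⟩
  · exact not_not.1 (hW (Sum.inl (M, p, G, q, c)))
  · exact not_not.1 (hW (Sum.inr M))

theorem expHard {W : Oracle} (hW : ∀ M, GoodX M W) : ExpHardOnAverage (OJ W) (LJ W) := by
  rintro D ⟨M, hM⟩
  obtain ⟨d, hd, h⟩ := hW M
  refine ⟨d, hd, fun n hn a ha => ?_⟩
  have h1 := h n hn a ha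
  simp only [hM, Option.some.injEq] at h1
  exact h1

/-- A relativized world where `NP` is easy on average and some language in `Σ_2` is exponentially
hard on average. -/
theorem mainJ : ∃ O : Oracle,
    (∀ L : Set (List Bool), IsSig O 1 L → ∀ F : List Bool → List Bool, IsFP O F →
      ∀ (q : Polynomial ℕ) (c : ℕ), RS.EasyOnSamples O L F q c) ∧
    ∃ L : Set (List Bool), IsSig O 2 L ∧ ExpHardOnAverage O L := by
  obtain ⟨W, h2, h3⟩ := exists_WJ
  exact ⟨OJ W, fun L hL F hF q c => easyJ h2 hL hF q c, LJ W, isSig_LJ W, expHard h3⟩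

end Pool.Agent.W908.KS.JS
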