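import Pool.Agent.W908.J.J1

/-! The protection cannot be foreseen. -/

set_option autoImplicit false

namespace Pool.Agent.W908.KS.JS

open Pool.Agent.NPC Pool.Agent.H620R2.Gauge Finset H568R2 Pool.Agent.H676
open Pool.Agent.W908.SP (Fo Qo bv unif_nn unif_sm Ex_owr Ex_unif_av idx_inj sn sens)
open Pool.Agent.W908.PS (pwd ppos ppos_inj length_ppos length_pwd idx_lt_pow Ex_comm)
open Pool.Agent.H591R3.PHG.Proj (owr owr_e owr_off owr_owr)
open Pool.Agent.W908.HS (guess pwd_get ppos_head)

/-- the function does not depend on the later bits of the long secrets -/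
def InvJ {N : ℕ} (ℓ' ℓ : ℕ) (h : (Fin N → Bool) → ℝ) : Prop :=
  ∀ a a' : Fin N → Bool, Agree ℓ' ℓ (pwd (orc N a)) (pwd (orc N a')) →
    (∀ s, orc N a (false :: s) = orc N a' (false :: s)) → h a = h a'

theorem invJ_owr {N ℓ' ℓ m : ℕ} {h : (Fin N → Bool) → ℝ} (hI : InvJ ℓ' ℓ h) (hm : ℓ ≤ m)
    (e : Fin (ℓ - ℓ') → Fin N) (he : ∀ i, (e i).val = idx (ppos m (ℓ' + i)))
    (a : Fin N → Bool) (z : Fin (ℓ - ℓ') → Bool) : h (owr e a z) = h a := by
  have key : ∀ s : List Bool, (∀ i : Fin (ℓ - ℓ'), s ≠ ppos m (ℓ' + i)) →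
      orc N (owr e a z) s = orc N a s := by
    intro s hs
    unfold orc
    split_ifs with h1
    · refine owr_off _ _ ?_
      rintro ⟨i, hi⟩
      have h2 := congrArg Fin.val hi
      rw [he] at h2
      exact hs i (idx_inj h2).symm
    · rfl
  refine hI _ _ ⟨fun m => length_pwd _ _, fun m => length_pwd _ _, fun m' => ?_, fun m' hm' => ?_⟩
    fun s => key _ fun i => ?_
  · unfold pwd
    rw [← List.map_take, ← List.map_take]
    refine List.map_congr_left fun j hj => key _ fun i h2 => ?_
    have h3 := (ppos_inj h2).2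
    rw [List.take_range, List.mem_range] at hj
    have := lt_of_lt_of_le hj (min_le_left _ _)
    omega
  · unfold pwd
    refine List.map_congr_left fun j hj => key _ fun i h2 => ?_
    have h3 := (ppos_inj h2).1
    omega
  · obtain ⟨t, ht⟩ := ppos_head m (ℓ' + i)
    rw [ht]
    simp

open Classical in
/-- The protection cannot be foreseen. -/
theorem star_prob {N B ℓ ℓ' : ℕ} (hN : 2 ^ (3 * B + 3) ≤ N) (hℓ : ℓ' ≤ ℓ)
    {s : List Bool} (hs : s.length ≤ B) {h : (Fin N → Bool) → ℝ} (h0 : ∀ a, 0 ≤ h a)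
    (hI : InvJ ℓ' ℓ h) :
    Ex unif (fun a : Fin N → Bool => h a * (if Star (pwd (orc N a)) ℓ s then (1 : ℝ) else 0)) ≤
      ((B : ℝ) + 1) ^ 2 * ((1 / 2) ^ (ℓ - ℓ') * Ex unif h) := by
  have hpos : ∀ m ∈ (range (B + 1)).filter (fun m => ℓ ≤ m), ∀ i : Fin (ℓ - ℓ'),
      idx (ppos m (ℓ' + i)) < N := by
    intro m hm i
    rw [Finset.mem_filter, Finset.mem_range] at hm
    refine (idx_lt_pow (B := 3 * B + 2) ?_).trans_le hN
    rw [length_ppos]
    have := i.2
    omega
  have hstep : ∀ m ∈ (range (B + 1)).filter (fun m => ℓ ≤ m), ∀ j : ℕ,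
      Ex unif (fun a : Fin N → Bool => h a * (if ∀ i : Fin (ℓ - ℓ'),
        orc N a (ppos m (ℓ' + i)) = ((core s).drop j).getD (ℓ' + i) false then (1 : ℝ) else 0)) =
      (1 / 2) ^ (ℓ - ℓ') * Ex unif h := by
    intro m hm j
    obtain ⟨e, he⟩ : ∃ e : Fin (ℓ - ℓ') → Fin N, e = fun i => ⟨idx (ppos m (ℓ' + i)),
      hpos m hm i⟩ := ⟨_, rfl⟩
    have hev : ∀ i, (e i).val = idx (ppos m (ℓ' + i)) := by
      intro i
      rw [he]
    have hei : Function.Injective e := by
      intro i i' hii
      have h1 := congrArg Fin.val hii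
      rw [hev, hev] at h1
      have h2 := (ppos_inj (idx_inj h1)).2
      exact Fin.ext (by omega)
    have h1 := guess e hei (fun i => ((core s).drop j).getD (ℓ' + i) false) h
      (fun a z => invJ_owr hI (Finset.mem_filter.1 hm).2 e hev a z)
    rw [← h1]
    congr 1
    funext a
    congr 1
    have e2 : (∀ i : Fin (ℓ - ℓ'), orc N a (ppos m (ℓ' + i)) =
        ((core s).drop j).getD (ℓ' + i) false) ↔ ∀ i, a (e i) = ((core s).drop j).getD (ℓ' + i) false := by
      refine forall_congr' fun i => ?_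
      have e3 : orc N a (ppos m (ℓ' + i)) = a (e i) := by
        unfold orc
        rw [dif_pos (hpos m hm i), he]
      rw [e3]
    simp only [e2]
  have hpt : ∀ a : Fin N → Bool, h a * (if Star (pwd (orc N a)) ℓ s then (1 : ℝ) else 0) ≤
      ∑ m ∈ (range (B + 1)).filter (fun m => ℓ ≤ m), ∑ j ∈ range (B + 1),
        h a * (if ∀ i : Fin (ℓ - ℓ'), orc N a (ppos m (ℓ' + i)) =
          ((core s).drop j).getD (ℓ' + i) false then (1 : ℝ) else 0) := by
    intro a
    have hnn : ∀ m j, 0 ≤ h a * (if ∀ i : Fin (ℓ - ℓ'), orc N a (ppos m (ℓ' + i)) =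
          ((core s).drop j).getD (ℓ' + i) false then (1 : ℝ) else 0) := by
      intro m j
      refine mul_nonneg (h0 a) ?_
      split_ifs <;> norm_num
    by_cases hS : Star (pwd (orc N a)) ℓ s
    · obtain ⟨m, h1, h2, u, v, huv⟩ := hS
      have hm : m ∈ (range (B + 1)).filter (fun m => ℓ ≤ m) := by
        rw [Finset.mem_filter, Finset.mem_range]
        omega
      have hu : u.length ∈ range (B + 1) := by
        rw [Finset.mem_range]
        have h3 := congrArg List.length huv
        have h4 := core_len s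
        rw [List.length_append, List.length_append] at h3
        omega
      refine le_trans ?_ (Finset.single_le_sum (f := fun m => ∑ j ∈ range (B + 1),
        h a * (if ∀ i : Fin (ℓ - ℓ'), orc N a (ppos m (ℓ' + i)) =
          ((core s).drop j).getD (ℓ' + i) false then (1 : ℝ) else 0))
        (fun m _ => Finset.sum_nonneg fun j _ => hnn m j) hm)
      refine le_trans ?_ (Finset.single_le_sum (f := fun j =>
        h a * (if ∀ i : Fin (ℓ - ℓ'), orc N a (ppos m (ℓ' + i)) =
          ((core s).drop j).getD (ℓ' + i) false then (1 : ℝ) else 0))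
        (fun j _ => hnn m j) hu)
      have hb : ∀ i : Fin (ℓ - ℓ'), orc N a (ppos m (ℓ' + i)) =
          ((core s).drop u.length).getD (ℓ' + i) false := by
        intro i
        have hi := i.2
        have h3 : (core s).drop u.length = (pwd (orc N a) m).take ℓ ++ v := by
          rw [← huv, List.append_assoc, List.drop_left]
        have h4 : ℓ' + i < ((pwd (orc N a) m).take ℓ).length := by
          rw [List.length_take, length_pwd]
          omega
        rw [h3, List.getD_append _ _ _ _ h4, List.getD_eq_getElem _ _ h4, List.getElem_take]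
        exact (pwd_get _ _ _ _).symm
      rw [if_pos ⟨m, h1, h2, u, v, huv⟩, if_pos hb]
    · rw [if_neg hS, mul_zero]
      exact Finset.sum_nonneg fun m _ => Finset.sum_nonneg fun j _ => hnn m j
  refine (Ex_mono unif_nn hpt).trans ?_
  rw [Ex_sum]
  have hE : 0 ≤ Ex unif h := by
    have := Ex_mono (w := unif) unif_nn (F := fun _ : Fin N → Bool => (0 : ℝ)) (G := h) h0
    rwa [Ex_const unif_sm] at this
  have h5 : ∀ m ∈ (range (B + 1)).filter (fun m => ℓ ≤ m),
      Ex unif (fun a : Fin N → Bool => ∑ j ∈ range (B + 1),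
        h a * (if ∀ i : Fin (ℓ - ℓ'), orc N a (ppos m (ℓ' + i)) =
          ((core s).drop j).getD (ℓ' + i) false then (1 : ℝ) else 0)) =
      ((B : ℝ) + 1) * ((1 / 2) ^ (ℓ - ℓ') * Ex unif h) := by
    intro m hm
    rw [Ex_sum, Finset.sum_congr rfl fun j _ => hstep m hm j, Finset.sum_const,
      Finset.card_range, nsmul_eq_mul]
    push_cast
    ring
  rw [Finset.sum_congr rfl h5, Finset.sum_const, nsmul_eq_mul, sq, mul_assoc]
  apply mul_le_mul_of_nonneg_right _ (by positivity)
  have h6 : ((range (B + 1)).filter (fun m => ℓ ≤ m)).card ≤ B + 1 :=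
    (Finset.card_filter_le _ _).trans (by rw [Finset.card_range])
  exact_mod_cast h6

end Pool.Agent.W908.KS.JS
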