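import Pool.Agent.W908.J.J2
import Pool.Agent.W908.K.K8

/-! The probability that the solver is wrong at the sample: the parts. -/

set_option autoImplicit false

namespace Pool.Agent.W908.KS.JS

open Pool.Agent.NPC Pool.Agent.H620R2.Gauge Finset H568R2 Pool.Agent.H676
open Pool.Agent.W908.SP (Fo Qo bv unif_nn unif_sm Ex_owr Ex_unif_av idx_inj sn sens
  Qo_comp qs length_qs)
open Pool.Agent.W908.PS (pwd ppos ppos_inj length_ppos length_pwd idx_lt_pow Ex_comm qq qb
  qb_spec out_congr pwd_local)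
open Pool.Agent.W908.HS (fo xs gv Ex_nn unpair_len2 ppos_head guess)
open Pool.Agent.H591R3.PHG.Proj (owr owr_e owr_off owr_owr)

/-- the oracle, for short questions -/
noncomputable def wd (W : Oracle) (T : ℕ) : Oracle := oh (pwd W) T T W

/-- the oracle without the long exceptional blocks, for short questions -/
noncomputable def wc (W : Oracle) (T ℓ : ℕ) : Oracle := oh (pwd W) T ℓ W

/-- the oracle with new protected bits and without the long exceptional blocks -/
noncomputable def wn (W : Oracle) (T ℓ : ℕ) (Z : Oracle) : Oracle :=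
  oh (pwd W) T ℓ (rr (pwd W) ℓ W Z)

/-- the answer of the solver for the sample is wrong -/
def Er (W : Oracle) (N T ℓ : ℕ) (θ : Par) (G : Alg) (y : List Bool) : Prop :=
  decide (1 / 2 ≤ Ex unif (fun z : Fin N → Bool =>
    bv (fo θ (xs G y (wd W T)) (wn W T ℓ (orc N z))))) ≠ gv θ G y (wd W T)

open Classical in
theorem er_le {W : Oracle} {N T ℓ : ℕ} {θ : Par} {G : Alg} {y : List Bool} :
    (if Er W N T ℓ θ G y then (1 : ℝ) else 0) ≤ 2 * Ex unif (fun z : Fin N → Bool =>
      if fo θ (xs G y (wd W T)) (wn W T ℓ (orc N z)) ≠ gv θ G y (wd W T) then (1 : ℝ) else 0) := by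
  by_cases h : Er W N T ℓ θ G y
  swap
  · rw [if_neg h]
    exact mul_nonneg (by norm_num) (Ex_nn fun z => by split_ifs <;> norm_num)
  rw [if_pos h]
  unfold Er at h
  cases hv : gv θ G y (wd W T) with
  | true =>
    rw [hv] at h
    have h1 : ¬ (1 / 2 ≤ Ex unif (fun z : Fin N → Bool =>
      bv (fo θ (xs G y (wd W T)) (wn W T ℓ (orc N z))))) := by
      intro h2
      exact h (decide_eq_true h2)
    have h2 : (fun z : Fin N → Bool => if fo θ (xs G y (wd W T)) (wn W T ℓ (orc N z)) ≠ true
        then (1 : ℝ) else 0) = fun z => 1 + (-1) *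
        bv (fo θ (xs G y (wd W T)) (wn W T ℓ (orc N z))) := by
      funext z
      unfold bv
      cases fo θ (xs G y (wd W T)) (wn W T ℓ (orc N z)) <;> norm_num
    rw [h2, Ex_add, Ex_smul, Ex_const unif_sm]
    push Not at h1
    linarith
  | false =>
    rw [hv] at h
    have h1 : 1 / 2 ≤ Ex unif (fun z : Fin N → Bool =>
      bv (fo θ (xs G y (wd W T)) (wn W T ℓ (orc N z)))) := by
      by_contra h2
      exact h (decide_eq_false h2)
    have h2 : (fun z : Fin N → Bool => if fo θ (xs G y (wd W T)) (wn W T ℓ (orc N z)) ≠ false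
        then (1 : ℝ) else 0) = fun z => bv (fo θ (xs G y (wd W T)) (wn W T ℓ (orc N z))) := by
      funext z
      unfold bv
      congr 1
      rw [ne_eq, Bool.not_eq_false]
    rw [h2]
    linarith

theorem wn_eq {W : Oracle} {T ℓ : ℕ} (hT : T ≤ 2 ^ ℓ) {Z : Oracle} {q : List Bool}
    (h : ¬ Star (pwd W) ℓ q) : wn W T ℓ Z q = wc W T ℓ q := by
  classical
  unfold wn wc
  have hr : ∀ s, ¬ Star (pwd W) ℓ s → rr (pwd W) ℓ W Z s = W s := by
    intro s hs
    unfold rr
    rw [if_neg hs]
  match q with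
  | [] => rw [oh_nil, oh_nil]
  | true :: q => exact oh_star hT hr q
  | false :: q =>
    by_cases hq : (false :: q).length < T
    · rw [oh_data hq, oh_data hq]
      exact dat_star hr h
    · rw [oh_ge (by omega), oh_ge (by omega)]

theorem wd_eq {W : Oracle} {T ℓ : ℕ} {q : List Bool}
    (h : ¬ Star (pwd W) ℓ q) : wd W T q = wc W T ℓ q := by
  unfold wd wc
  rw [oh_L (L := T) (L' := max T ℓ) le_rfl (le_max_left _ _)]
  match q with
  | [] => rw [oh_nil, oh_nil]
  | true :: q => exact oh_slv_L q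
  | false :: q =>
    by_cases hq : (false :: q).length < T
    · rw [oh_data hq, oh_data hq]
      exact dat_star_L (le_max_right _ _) (fun _ _ => rfl) h
    · rw [oh_ge (by omega), oh_ge (by omega)]

theorem xs_ne {W : Oracle} {T ℓ : ℕ} (hT : T ≤ 2 ^ ℓ) {G : Alg} {y : List Bool} {Z : Oracle}
    (h : xs G y (wn W T ℓ Z) ≠ xs G y (wd W T)) :
    ∃ q ∈ qq G (wc W T ℓ) y, Star (pwd W) ℓ q := by
  by_contra hcon
  push Not at hcon
  apply h
  unfold xs
  rw [(out_congr G fun q hq => wn_eq hT (hcon q hq)).1,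
    (out_congr G (O' := wd W T) fun q hq => wd_eq (hcon q hq)).1]

/-- the data bits matter, and the first bits of the secrets -/
theorem wc_inv {N T ℓ' ℓ : ℕ} (hT : T ≤ 2 ^ ℓ') {a a' : Fin N → Bool}
    (h1 : Agree ℓ' ℓ (pwd (orc N a)) (pwd (orc N a')))
    (h2 : ∀ s, orc N a (false :: s) = orc N a' (false :: s)) :
    wc (orc N a) T ℓ = wc (orc N a') T ℓ := by
  unfold wc
  rw [oh_agree hT h1]
  exact oh_congr (fun _ _ => rfl) fun s _ => h2 s

open Classical in
/-- few questions do not meet the protected strings -/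
theorem meet_prob {N T ℓ ℓ' t : ℕ} (hN : 2 ^ (3 * T + 3) ≤ N) (hℓ : ℓ' ≤ ℓ) (hT : T ≤ 2 ^ ℓ')
    (Q : Oracle → List (List Bool)) (hQ : ∀ O, (Q O).length ≤ t)
    (hQT : ∀ O, ∀ q ∈ Q O, q.length ≤ T) :
    Ex unif (fun a : Fin N → Bool =>
      if ∃ q ∈ Q (wc (orc N a) T ℓ), Star (pwd (orc N a)) ℓ q then (1 : ℝ) else 0) ≤
      (t : ℝ) * (((T : ℝ) + 1) ^ 2 * (1 / 2) ^ (ℓ - ℓ')) := by
  have hpt : ∀ a : Fin N → Bool,
      (if ∃ q ∈ Q (wc (orc N a) T ℓ), Star (pwd (orc N a)) ℓ q then (1 : ℝ) else 0) ≤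
      ∑ s ∈ W_strs T, (if s ∈ Q (wc (orc N a) T ℓ) then (1 : ℝ) else 0) *
        (if Star (pwd (orc N a)) ℓ s then (1 : ℝ) else 0) := by
    intro a
    have hnn : ∀ s ∈ W_strs T, (0 : ℝ) ≤ (if s ∈ Q (wc (orc N a) T ℓ) then (1 : ℝ) else 0) *
        (if Star (pwd (orc N a)) ℓ s then (1 : ℝ) else 0) := by
      intro s _
      refine mul_nonneg ?_ ?_ <;> split_ifs <;> norm_num
    by_cases h : ∃ q ∈ Q (wc (orc N a) T ℓ), Star (pwd (orc N a)) ℓ q
    · rw [if_pos h]
      obtain ⟨q, h1, h2⟩ := h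
      refine le_trans ?_ (Finset.single_le_sum hnn (W_mem_strs (hQT _ q h1)))
      rw [if_pos h1, if_pos h2, mul_one]
    · rw [if_neg h]
      exact Finset.sum_nonneg hnn
  refine (Ex_mono unif_nn hpt).trans ?_
  rw [Ex_sum]
  have h1 : ∀ s ∈ W_strs T, Ex unif (fun a : Fin N → Bool =>
      (if s ∈ Q (wc (orc N a) T ℓ) then (1 : ℝ) else 0) *
        (if Star (pwd (orc N a)) ℓ s then (1 : ℝ) else 0)) ≤
      ((T : ℝ) + 1) ^ 2 * ((1 / 2) ^ (ℓ - ℓ') * Ex unif (fun a : Fin N → Bool =>
        (if s ∈ Q (wc (orc N a) T ℓ) then (1 : ℝ) else 0))) := by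
    intro s hs
    refine star_prob hN hℓ (W_length_of_mem hs) (fun a => by split_ifs <;> norm_num) ?_
    intro a a' h2 h3
    beta_reduce
    rw [wc_inv hT h2 h3]
  refine (Finset.sum_le_sum h1).trans ?_
  rw [← Finset.mul_sum, ← Finset.mul_sum, ← Ex_sum]
  have h2 : Ex unif (fun a : Fin N → Bool => ∑ s ∈ W_strs T,
      (if s ∈ Q (wc (orc N a) T ℓ) then (1 : ℝ) else 0)) ≤ (t : ℝ) := by
    refine (Ex_mono unif_nn (G := fun _ => (t : ℝ)) fun a => ?_).trans
      (le_of_eq (Ex_const unif_sm _))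
    rw [Finset.sum_boole]
    have h3 : ((W_strs T).filter (fun s => s ∈ Q (wc (orc N a) T ℓ))).card ≤
        (Q (wc (orc N a) T ℓ)).toFinset.card := by
      refine Finset.card_le_card fun s hs => ?_
      rw [List.mem_toFinset]
      exact (Finset.mem_filter.1 hs).2
    have h4 := (List.toFinset_card_le (Q (wc (orc N a) T ℓ)))
    exact_mod_cast h3.trans (h4.trans (hQ _))
  calc ((T : ℝ) + 1) ^ 2 * ((1 / 2) ^ (ℓ - ℓ') * Ex unif (fun a : Fin N → Bool =>
        ∑ s ∈ W_strs T, (if s ∈ Q (wc (orc N a) T ℓ) then (1 : ℝ) else 0)))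
      ≤ ((T : ℝ) + 1) ^ 2 * ((1 / 2) ^ (ℓ - ℓ') * (t : ℝ)) := by
        apply mul_le_mul_of_nonneg_left _ (by positivity)
        exact mul_le_mul_of_nonneg_left h2 (by positivity)
    _ = _ := by ring

/-! ### A key of an exceptional block cannot be found -/

/-- the block of a question -/
def zt (q : List Bool) : List Bool := (unpair (q.drop 2)).2

/-- the key of a question -/
def wt (q : List Bool) : List Bool := (unpair (q.drop 2)).1.tail

/-- the block `z` is a long exceptional block with the bit `false` -/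
def Hid (W : Oracle) (T ℓ : ℕ) (z : List Bool) : Prop :=
  Exc (pwd W) T z ∧ ¬ Exc (pwd W) ℓ z ∧ W (kp z z.length) = false

theorem exc_mono {P : ℕ → List Bool} {L L' : ℕ} (h : L ≤ L') {z : List Bool} (hz : Exc P L z) :
    Exc P L' z := by
  obtain ⟨m, h1, h2⟩ := hz
  exact ⟨m, by omega, h2⟩

theorem ne_hid {W : Oracle} {T ℓ : ℕ} {q : List Bool} (h : wc W T ℓ q ≠ wd W T q) :
    Hid W T ℓ (zt q) ∧ wt q = key W (zt q) := by
  classical
  by_contra hcon
  apply h
  unfold wc wd
  match q with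
  | [] => rw [oh_nil, oh_nil]
  | true :: q => exact oh_slv_L q
  | false :: q =>
    by_cases hq : (false :: q).length < T
    swap
    · rw [oh_ge (by omega), oh_ge (by omega)]
    rw [oh_data hq, oh_data hq]
    match q with
    | [] => rfl
    | false :: s => rfl
    | true :: t =>
      show kans _ _ _ (unpair t).1 (unpair t).2 = kans _ _ _ (unpair t).1 (unpair t).2
      have hz : zt (false :: true :: t) = (unpair t).2 := rfl
      have hw : wt (false :: true :: t) = (unpair t).1.tail := rfl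
      rw [hz, hw] at hcon
      unfold kans
      match hu : (unpair t).1 with
      | [] => rfl
      | c :: w =>
        simp only
        rw [hu, List.tail_cons] at hcon
        by_cases h1 : w = key W (unpair t).2
        swap
        · rw [decide_eq_false h1, Bool.false_and, Bool.false_and]
        by_cases h2 : W (kp (unpair t).2 (unpair t).2.length) = true
        · rw [h2, Bool.or_true, Bool.or_true]
        rw [Bool.not_eq_true] at h2
        have h3 : Exc (pwd W) T (unpair t).2 ↔ Exc (pwd W) ℓ (unpair t).2 := by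
          constructor
          · intro h4
            by_contra h5
            exact hcon ⟨⟨h4, h5, h2⟩, h1⟩
          · rintro ⟨m, h4, h5, h6⟩
            refine ⟨m, ?_, h5, h6⟩
            have h7 := unpair_len2 t
            simp only [List.length_cons] at hq
            omega
        simp only [h3]

theorem pwd_key_off {N : ℕ} {z : List Bool} (e : Fin z.length → Fin N)
    (he : ∀ i, (e i).val = idx (kp z i)) (a : Fin N → Bool) (κ : Fin z.length → Bool)
    {s : List Bool} (hs : ∀ i < z.length, s ≠ kp z i) : orc N (owr e a κ) s = orc N a s := by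
  unfold orc
  split_ifs with h1
  · refine Pool.Agent.H591R3.PHG.Proj.owr_off _ _ ?_
    rintro ⟨i, hi⟩
    have h2 := congrArg Fin.val hi
    rw [he] at h2
    exact hs i i.2 (idx_inj h2).symm
  · rfl

end Pool.Agent.W908.KS.JS
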