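import Pool.Agent.W908.J.J3
import Pool.Agent.W908.K.K10

/-! A key of an exceptional block cannot be found. -/

set_option autoImplicit false

namespace Pool.Agent.W908.KS.JS

open Pool.Agent.NPC Pool.Agent.H620R2.Gauge Finset H568R2 Pool.Agent.H676
open Pool.Agent.W908.SP (Fo Qo bv unif_nn unif_sm Ex_owr Ex_unif_av idx_inj sn sens
  Qo_comp qs length_qs)
open Pool.Agent.W908.PS (pwd ppos ppos_inj length_ppos length_pwd idx_lt_pow Ex_comm qq qb
  qb_spec out_congr pwd_local)
open Pool.Agent.W908.HS (fo xs gv Ex_nn unpair_len2 ppos_head guess)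
open Pool.Agent.H591R3.PHG.Proj (owr owr_e owr_off owr_owr)

theorem hid_len {W : Oracle} {T ℓ : ℕ} {z : List Bool} (h : Hid W T ℓ z) : 2 * ℓ ≤ z.length := by
  obtain ⟨⟨m, h1, h2, h3⟩, h4, -⟩ := h
  by_contra hcon
  exact h4 ⟨m, by omega, h2, h3⟩

theorem hid_star {W : Oracle} {T ℓ ℓ' : ℕ} (hℓ : ℓ' ≤ ℓ) {z : List Bool} (h : Hid W T ℓ z)
    (i : ℕ) : Star (pwd W) ℓ' (kp z i) := by
  have hl := hid_len h
  obtain ⟨⟨m, h1, h2, h3⟩, h4, -⟩ := h
  refine ⟨m, by omega, ?_, ?_⟩
  · rw [length_kp]
    omega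
  · rw [core_kp, ← h3]
    exact ((List.take_prefix _ _).isInfix).trans (List.drop_suffix _ _).isInfix

theorem wd_key {A A' : Oracle} {T ℓ ℓ' : ℕ} {z : List Bool} (hT : T ≤ 2 ^ ℓ') (hℓ : ℓ' ≤ ℓ)
    (hP : pwd A' = pwd A) (hA : ∀ s, (∀ i < z.length, s ≠ kp z i) → A' s = A s)
    (hz : Hid A T ℓ z) : wd A' T = wd A T := by
  classical
  funext s
  unfold wd
  rw [hP]
  match s with
  | [] => rw [oh_nil, oh_nil]
  | true :: q =>
    refine oh_star hT (fun s hs => hA s fun i _ h => hs ?_) q
    rw [h]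
    exact hid_star hℓ hz i
  | false :: q =>
    by_cases hq : (false :: q).length < T
    swap
    · rw [oh_ge (by omega), oh_ge (by omega)]
    rw [oh_data hq, oh_data hq]
    match q with
    | [] => rfl
    | false :: s => exact hA _ fun i _ h => by simp [kp] at h
    | true :: t =>
      show kans _ _ _ (unpair t).1 (unpair t).2 = kans _ _ _ (unpair t).1 (unpair t).2
      by_cases hzt : (unpair t).2 = z
      · rw [hzt]
        unfold kans
        match (unpair t).1 with
        | [] => rfl
        | c :: w =>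
          have h1 : A' (kp z z.length) = false := by
            rw [hA _ fun i hi h => by have := (kp_inj h).2; omega]
            exact hz.2.2
          simp only [h1, hz.2.2, hz.1, not_true, decide_false, Bool.or_self, Bool.and_false]
      · exact kans_congr Iff.rfl fun _ i _ => hA _ fun i' _ h => hzt (kp_inj h).1

open Classical in
theorem key_prob {N T ℓ ℓ' t : ℕ} (hN : 2 ^ (3 * T + 3) ≤ N) (hℓ : ℓ' ≤ ℓ) (hT : T ≤ 2 ^ ℓ')
    (Q : Oracle → List (List Bool)) (hQ : ∀ O, (Q O).length ≤ t)
    (hQT : ∀ O, ∀ q ∈ Q O, q.length ≤ T) :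
    Ex unif (fun a : Fin N → Bool =>
      if ∃ q ∈ Q (wd (orc N a) T), Hid (orc N a) T ℓ (zt q) ∧ wt q = key (orc N a) (zt q)
        then (1 : ℝ) else 0) ≤ (t : ℝ) * (1 / 2) ^ (ℓ - ℓ') := by
  have hpt : ∀ a : Fin N → Bool,
      (if ∃ q ∈ Q (wd (orc N a) T), Hid (orc N a) T ℓ (zt q) ∧ wt q = key (orc N a) (zt q)
        then (1 : ℝ) else 0) ≤
      ∑ s ∈ W_strs T, (if s ∈ Q (wd (orc N a) T) then (1 : ℝ) else 0) *
        (if Hid (orc N a) T ℓ (zt s) ∧ wt s = key (orc N a) (zt s) then (1 : ℝ) else 0) := by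
    intro a
    have hnn : ∀ s ∈ W_strs T, (0 : ℝ) ≤ (if s ∈ Q (wd (orc N a) T) then (1 : ℝ) else 0) *
        (if Hid (orc N a) T ℓ (zt s) ∧ wt s = key (orc N a) (zt s) then (1 : ℝ) else 0) := by
      intro s _
      refine mul_nonneg ?_ ?_ <;> split_ifs <;> norm_num
    by_cases h : ∃ q ∈ Q (wd (orc N a) T), Hid (orc N a) T ℓ (zt q) ∧
        wt q = key (orc N a) (zt q)
    · rw [if_pos h]
      obtain ⟨q, h1, h2⟩ := h
      refine le_trans ?_ (Finset.single_le_sum hnn (W_mem_strs (hQT _ q h1)))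
      rw [if_pos h1, if_pos h2, mul_one]
    · rw [if_neg h]
      exact Finset.sum_nonneg hnn
  refine (Ex_mono unif_nn hpt).trans ?_
  rw [Ex_sum]
  have h1 : ∀ s ∈ W_strs T, Ex unif (fun a : Fin N → Bool =>
      (if s ∈ Q (wd (orc N a) T) then (1 : ℝ) else 0) *
        (if Hid (orc N a) T ℓ (zt s) ∧ wt s = key (orc N a) (zt s) then (1 : ℝ) else 0)) ≤
      (1 / 2) ^ (ℓ - ℓ') * Ex unif (fun a : Fin N → Bool =>
        (if s ∈ Q (wd (orc N a) T) then (1 : ℝ) else 0)) := by
    intro s hs
    have hsT : s.length ≤ T := W_length_of_mem hs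
    have hE0 : 0 ≤ Ex unif (fun a : Fin N → Bool =>
        (if s ∈ Q (wd (orc N a) T) then (1 : ℝ) else 0)) :=
      Ex_nn fun a => by split_ifs <;> norm_num
    obtain ⟨z, hz⟩ : ∃ z, z = zt s := ⟨_, rfl⟩
    by_cases hl : 2 * ℓ ≤ z.length
    swap
    · have h0 : ∀ a : Fin N → Bool, (if s ∈ Q (wd (orc N a) T) then (1 : ℝ) else 0) *
          (if Hid (orc N a) T ℓ (zt s) ∧ wt s = key (orc N a) (zt s) then (1 : ℝ) else 0) = 0 := by
        intro a
        rw [← hz, if_neg (c := Hid (orc N a) T ℓ z ∧ _) fun h => hl (hid_len h.1), mul_zero]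
      simp only [h0]
      rw [Ex_const unif_sm]
      positivity
    have hzT : z.length ≤ T := by
      rw [hz]
      unfold zt
      have h2 := unpair_len2 (s.drop 2)
      rw [List.length_drop] at h2
      omega
    have hpos : ∀ i : Fin z.length, idx (kp z i) < N := by
      intro i
      refine (idx_lt_pow (B := 3 * T + 2) ?_).trans_le hN
      rw [length_kp]
      have := i.2
      by_cases h2 : z.length + 2 ≤ T
      · omega
      · have h3 : z.length + 2 ≤ T ∨ s.length < 2 := by
          have h2 := unpair_len2 (s.drop 2)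
          rw [List.length_drop] at h2
          have h4 : z.length = (unpair (s.drop 2)).2.length := by rw [hz]; rfl
          omega
        rcases h3 with h3 | h3
        · omega
        · have h4 : z.length = (unpair (s.drop 2)).2.length := by rw [hz]; rfl
          have h2 := unpair_len2 (s.drop 2)
          rw [List.length_drop] at h2
          omega
    obtain ⟨e, he⟩ : ∃ e : Fin z.length → Fin N, e = fun i => ⟨idx (kp z i), hpos i⟩ := ⟨_, rfl⟩
    have hev : ∀ i, (e i).val = idx (kp z i) := by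
      intro i
      rw [he]
    have hei : Function.Injective e := by
      intro i i' hii
      have h2 := congrArg Fin.val hii
      rw [hev, hev] at h2
      exact Fin.ext (kp_inj (idx_inj h2)).2
    obtain ⟨h, hh⟩ : ∃ h : (Fin N → Bool) → ℝ, h = fun a =>
        (if s ∈ Q (wd (orc N a) T) then (1 : ℝ) else 0) *
        (if Hid (orc N a) T ℓ z then (1 : ℝ) else 0) := ⟨_, rfl⟩
    have hoff : ∀ (a : Fin N → Bool) (κ : Fin z.length → Bool) (s : List Bool),
        (∀ i < z.length, s ≠ kp z i) → orc N (owr e a κ) s = orc N a s :=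
      fun a κ s hs => pwd_key_off e hev a κ hs
    have hP : ∀ (a : Fin N → Bool) (κ : Fin z.length → Bool),
        pwd (orc N (owr e a κ)) = pwd (orc N a) := by
      intro a κ
      funext m
      unfold pwd
      refine List.map_congr_left fun i _ => hoff a κ _ fun i' _ h2 => ?_
      obtain ⟨u, hu⟩ := ppos_head m i
      rw [hu] at h2
      simp [kp] at h2
    have hH : ∀ (a : Fin N → Bool) (κ : Fin z.length → Bool),
        Hid (orc N (owr e a κ)) T ℓ z ↔ Hid (orc N a) T ℓ z := by
      intro a κ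
      unfold Hid
      rw [hP, hoff a κ _ fun i hi h2 => by have := (kp_inj h2).2; omega]
    have hinv : ∀ a κ, h (owr e a κ) = h a := by
      intro a κ
      rw [hh]
      beta_reduce
      by_cases h2 : Hid (orc N a) T ℓ z
      · rw [if_pos h2, if_pos ((hH a κ).2 h2), wd_key hT hℓ (hP a κ) (hoff a κ) h2]
      · rw [if_neg h2, if_neg fun h3 => h2 ((hH a κ).1 h3), mul_zero, mul_zero]
    have hg := guess e hei (fun i => (wt s).getD i false) h hinv
    have hle : Ex unif (fun a : Fin N → Bool =>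
        (if s ∈ Q (wd (orc N a) T) then (1 : ℝ) else 0) *
        (if Hid (orc N a) T ℓ (zt s) ∧ wt s = key (orc N a) (zt s) then (1 : ℝ) else 0)) ≤
        (1 / 2) ^ z.length * Ex unif h := by
      rw [← hg]
      refine Ex_mono unif_nn fun a => ?_
      rw [← hz, hh]
      beta_reduce
      by_cases h2 : Hid (orc N a) T ℓ z ∧ wt s = key (orc N a) z
      · have hc : ∀ i : Fin z.length, a (e i) = (wt s).getD i false := by
          intro i
          rw [h2.2, List.getD_eq_getElem _ _ (by rw [length_key]; exact i.2)]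
          unfold key
          rw [List.getElem_map, List.getElem_range]
          unfold orc
          rw [dif_pos (hpos i), he]
        rw [if_pos h2, if_pos (c := Hid (orc N a) T ℓ z) h2.1, if_pos hc]
        simp only [mul_one, le_refl]
      · rw [if_neg h2, mul_zero]
        refine mul_nonneg (mul_nonneg ?_ ?_) ?_ <;> split_ifs <;> norm_num
    refine hle.trans (mul_le_mul ?_ (Ex_mono unif_nn fun a => ?_) ?_ (by positivity))
    · exact pow_le_pow_of_le_one (by norm_num) (by norm_num) (by omega)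
    · rw [hh]
      beta_reduce
      split_ifs <;> norm_num
    · rw [hh]
      exact Ex_nn fun a => by split_ifs <;> norm_num
  refine (Finset.sum_le_sum h1).trans ?_
  rw [← Finset.mul_sum, ← Ex_sum, mul_comm]
  apply mul_le_mul_of_nonneg_right _ (by positivity)
  refine (Ex_mono unif_nn (G := fun _ => (t : ℝ)) fun a => ?_).trans
    (le_of_eq (Ex_const unif_sm _))
  rw [Finset.sum_boole]
  have h3 : ((W_strs T).filter (fun s => s ∈ Q (wd (orc N a) T))).card ≤
      (Q (wd (orc N a) T)).toFinset.card := by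
    refine Finset.card_le_card fun s hs => ?_
    rw [List.mem_toFinset]
    exact (Finset.mem_filter.1 hs).2
  have h4 := (List.toFinset_card_le (Q (wd (orc N a) T)))
  exact_mod_cast h3.trans (h4.trans (hQ _))

end Pool.Agent.W908.KS.JS
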