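import Pool.Agent.W908.J.J4

/-! Formulas with one quantifier do not see the long exceptional blocks. -/

set_option autoImplicit false

namespace Pool.Agent.W908.KS.JS

open Pool.Agent.NPC Pool.Agent.H620R2.Gauge Finset H568R2 Pool.Agent.H676
open Pool.Agent.W908.SP (Fo Qo bv unif_nn unif_sm Ex_owr Ex_unif_av idx_inj sn sens
  Qo_comp qs length_qs)
open Pool.Agent.W908.PS (pwd ppos ppos_inj length_ppos length_pwd idx_lt_pow Ex_comm qq qb
  qb_spec out_congr pwd_local)
open Pool.Agent.W908.HS (fo xs gv Ex_nn unpair_len2 ppos_head guess ob length_xs)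

open Classical in
/-- a certificate -/
noncomputable def cert (θ : Par) (x : List Bool) (O : Oracle) : List Bool :=
  if h : ∃ w : List Bool, w.length ≤ θ.p.eval x.length ∧ Fo θ.M (pairBits w x) O = true
  then h.choose else []

/-- the questions that matter for the value `true` -/
noncomputable def qn (θ : Par) (G : Alg) (y : List Bool) (O : Oracle) : List (List Bool) :=
  qq G O y ++ qq θ.M O (pairBits (cert θ (xs G y O) O) (xs G y O))

theorem gv_one {θ : Par} (hk : θ.k = 1) {G : Alg} {y : List Bool} {O : Oracle} :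
    gv θ G y O = true ↔ ∃ w : List Bool, w.length ≤ θ.p.eval (xs G y O).length ∧
      Fo θ.M (pairBits w (xs G y O)) O = true := by
  unfold gv fo Qo
  rw [hk]
  show QF _ (Fo θ.M) (0 + 1) true _ O = true ↔ _
  unfold QF
  exact @decide_eq_true_iff _ (_)

theorem cert_len (θ : Par) (x : List Bool) (O : Oracle) :
    (cert θ x O).length ≤ θ.p.eval x.length := by
  classical
  unfold cert
  split_ifs with h
  · exact h.choose_spec.1
  · simp

theorem gv_of {θ : Par} (hk : θ.k = 1) {G : Alg} {y : List Bool} {O O' : Oracle}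
    (h : gv θ G y O = true) (hq : ∀ q ∈ qn θ G y O, O' q = O q) : gv θ G y O' = true := by
  classical
  rw [gv_one hk] at h ⊢
  have h1 : xs G y O' = xs G y O := by
    unfold xs
    rw [(out_congr G fun q hq' => hq q (List.mem_append_left _ hq')).1]
  rw [h1]
  refine ⟨cert θ (xs G y O) O, cert_len _ _ _, ?_⟩
  have h2 : Fo θ.M (pairBits (cert θ (xs G y O) O) (xs G y O)) O = true := by
    unfold cert
    rw [dif_pos h]
    exact h.choose_spec.2
  unfold Fo at h2 ⊢
  rw [(out_congr θ.M fun q hq' => hq q (List.mem_append_right _ hq')).1]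
  exact h2

/-- the number of the questions that matter -/
theorem qn_len {θ : Par} {G : Alg} {y : List Bool} {t X : ℕ} (hX : (ob G).eval y.length ≤ X)
    (ht : G.p.eval y.length + θ.M.p.eval (2 * θ.p.eval X + 1 + X) ≤ t) (O : Oracle) :
    (qn θ G y O).length ≤ t := by
  unfold qn
  rw [List.length_append]
  have h1 := length_qs G O y (G.p.eval y.length) []
  have h2 := length_qs θ.M O (pairBits (cert θ (xs G y O) O) (xs G y O))
    (θ.M.p.eval (pairBits (cert θ (xs G y O) O) (xs G y O)).length) []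
  have h3 : (xs G y O).length ≤ X := (length_xs _ _ _).trans hX
  have h4 := cert_len θ (xs G y O) O
  have h5 := eval_mono θ.p h3
  have h6 : θ.M.p.eval (pairBits (cert θ (xs G y O) O) (xs G y O)).length ≤
      θ.M.p.eval (2 * θ.p.eval X + 1 + X) := by
    apply eval_mono
    rw [A2.length_pairBits]
    omega
  unfold qq
  omega

theorem qn_T {θ : Par} {G : Alg} {y : List Bool} {T X : ℕ} (hX : (ob G).eval y.length ≤ X)
    (hT1 : (qb G).eval y.length ≤ T) (hT2 : (qb θ.M).eval (2 * θ.p.eval X + 1 + X) ≤ T)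
    (O : Oracle) : ∀ q ∈ qn θ G y O, q.length ≤ T := by
  intro q hq
  unfold qn at hq
  rcases List.mem_append.1 hq with h | h
  · exact (qb_spec G _ _ q h).trans hT1
  · refine (qb_spec θ.M _ _ q h).trans (le_trans (eval_mono _ ?_) hT2)
    have h3 : (xs G y O).length ≤ X := (length_xs _ _ _).trans hX
    have h4 := cert_len θ (xs G y O) O
    have h5 := eval_mono θ.p h3
    rw [A2.length_pairBits]
    omega

open Classical in
theorem np_prob {N T ℓ ℓ' t : ℕ} (hN : 2 ^ (3 * T + 3) ≤ N) (hℓ : ℓ' ≤ ℓ) (hT : T ≤ 2 ^ ℓ')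
    {θ : Par} (hk : θ.k = 1) (G : Alg) (y : List Bool)
    (ht : G.p.eval y.length + θ.M.p.eval (2 * θ.p.eval ((ob G).eval y.length) + 1 +
      (ob G).eval y.length) ≤ t)
    (hT1 : (qb G).eval y.length ≤ T)
    (hT2 : (qb θ.M).eval (2 * θ.p.eval ((ob G).eval y.length) + 1 + (ob G).eval y.length) ≤ T) :
    Ex unif (fun a : Fin N → Bool =>
      if gv θ G y (wc (orc N a) T ℓ) ≠ gv θ G y (wd (orc N a) T) then (1 : ℝ) else 0) ≤
      2 * ((t : ℝ) * (((T : ℝ) + 1) ^ 2 * (1 / 2) ^ (ℓ - ℓ'))) := by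
  have h1 := meet_prob (N := N) (T := T) (ℓ := ℓ) (ℓ' := ℓ') (t := t) hN hℓ hT (qn θ G y)
    (qn_len le_rfl ht) (qn_T le_rfl hT1 hT2)
  have h2 := key_prob (N := N) (T := T) (ℓ := ℓ) (ℓ' := ℓ') (t := t) hN hℓ hT (qn θ G y)
    (qn_len le_rfl ht) (qn_T le_rfl hT1 hT2)
  have hpt : ∀ a : Fin N → Bool,
      (if gv θ G y (wc (orc N a) T ℓ) ≠ gv θ G y (wd (orc N a) T) then (1 : ℝ) else 0) ≤
      (if ∃ q ∈ qn θ G y (wc (orc N a) T ℓ), Star (pwd (orc N a)) ℓ q then (1 : ℝ) else 0) +
      (if ∃ q ∈ qn θ G y (wd (orc N a) T), Hid (orc N a) T ℓ (zt q) ∧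
        wt q = key (orc N a) (zt q) then (1 : ℝ) else 0) := by
    intro a
    by_cases h3 : ∃ q ∈ qn θ G y (wc (orc N a) T ℓ), Star (pwd (orc N a)) ℓ q
    · rw [if_pos h3]
      split_ifs <;> norm_num
    by_cases h4 : ∃ q ∈ qn θ G y (wd (orc N a) T), Hid (orc N a) T ℓ (zt q) ∧
        wt q = key (orc N a) (zt q)
    · rw [if_pos h4]
      split_ifs <;> norm_num
    rw [if_neg h3, if_neg h4, if_neg]
    · norm_num
    rw [not_not]
    push Not at h3
    cases hc : gv θ G y (wc (orc N a) T ℓ) with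
    | true => exact (gv_of hk hc fun q hq => wd_eq (h3 q hq)).symm
    | false =>
      cases hd : gv θ G y (wd (orc N a) T) with
      | false => rfl
      | true =>
        have h5 := gv_of (O' := wc (orc N a) T ℓ) hk hd fun q hq => by
          by_contra h6
          exact h4 ⟨q, hq, ne_hid h6⟩
        rw [hc] at h5
        exact absurd h5 (by simp)
  refine (Ex_mono unif_nn hpt).trans ?_
  rw [Ex_add]
  have h3 : (t : ℝ) * (1 / 2) ^ (ℓ - ℓ') ≤
      (t : ℝ) * (((T : ℝ) + 1) ^ 2 * (1 / 2) ^ (ℓ - ℓ')) := by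
    apply mul_le_mul_of_nonneg_left _ (by positivity)
    have h4 : (1 : ℝ) ≤ ((T : ℝ) + 1) ^ 2 := by
      have : (0 : ℝ) ≤ T := by positivity
      nlinarith
    have h5 : (0 : ℝ) ≤ (1 / 2) ^ (ℓ - ℓ') := by positivity
    nlinarith
  linarith

end Pool.Agent.W908.KS.JS
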