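import Pool.Agent.W908.J.J7

/-! The bad samples are rare. -/

set_option autoImplicit false

namespace Pool.Agent.W908.KS.JS

open Pool.Agent.NPC Pool.Agent.H620R2.Gauge Pool.Agent.H622R2 Finset H568R2 Pool.Agent.H676
open Pool.Agent.W908 (fr mach)
open Pool.Agent.W908.SP (Fo Qo bv unif_nn unif_sm Ex_owr Ex_unif_av idx_inj sn sens
  Qo_comp qs length_qs Qo_local mem_strsOf' card_strsOf')
open Pool.Agent.W908.PS (pwd ppos ppos_inj length_ppos length_pwd idx_lt_pow Ex_comm qq qb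
  qb_spec out_congr pwd_local Rare markov pre_local poly_unary)
open Pool.Agent.W908.HS (cut fo xs gv ob Ex_nn Ex_orc rb rb_spec FB FB_eval fo_congr qz mkP lvl pd
  si sl sl_eval length_si mq mq_eval mix)

/-- the length of the questions -/
noncomputable def TJ (θ : Par) (G : Alg) (q : Polynomial ℕ) : Polynomial ℕ :=
  (qb G).comp (sl q) + ((FB θ).comp (ob G)).comp (sl q) +
    (qb θ.M).comp (2 * mq θ G q + 1 + (ob G).comp (sl q)) + 1

theorem TJ_eval (θ : Par) (G : Alg) (q : Polynomial ℕ) (n : ℕ) : (TJ θ G q).eval n =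
    (qb G).eval ((sl q).eval n) + (FB θ).eval ((ob G).eval ((sl q).eval n)) +
      (qb θ.M).eval (2 * (mq θ G q).eval n + 1 + (ob G).eval ((sl q).eval n)) + 1 := by
  simp [TJ, Polynomial.eval_comp]

/-- the number of the questions -/
noncomputable def tj (θ : Par) (G : Alg) (q : Polynomial ℕ) : Polynomial ℕ :=
  G.p.comp (sl q) + θ.M.p.comp (2 * mq θ G q + 1 + (ob G).comp (sl q))

theorem tj_eval (θ : Par) (G : Alg) (q : Polynomial ℕ) (n : ℕ) : (tj θ G q).eval n =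
    G.p.eval ((sl q).eval n) + θ.M.p.eval (2 * (mq θ G q).eval n + 1 +
      (ob G).eval ((sl q).eval n)) := by
  simp [tj, Polynomial.eval_comp]

/-- the depth of the decision trees -/
noncomputable def tp (θ : Par) (G : Alg) (q : Polynomial ℕ) : Polynomial ℕ :=
  G.p.comp (sl q) * TJ θ G q + θ.M.p.comp (Polynomial.C θ.k * (2 * mq θ G q + 1) +
    Polynomial.C θ.k + (ob G).comp (sl q)) * TJ θ G q + (3 * TJ θ G q + 3) + Polynomial.C θ.k +
    (Polynomial.C θ.k * (2 * mq θ G q + 1) + 2) + 1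

theorem tp_eval (θ : Par) (G : Alg) (q : Polynomial ℕ) (n : ℕ) : (tp θ G q).eval n =
    G.p.eval ((sl q).eval n) * (TJ θ G q).eval n + θ.M.p.eval (θ.k * (2 * (mq θ G q).eval n + 1) +
      θ.k + (ob G).eval ((sl q).eval n)) * (TJ θ G q).eval n + (3 * (TJ θ G q).eval n + 3) + θ.k +
      (θ.k * (2 * (mq θ G q).eval n + 1) + 2) + 1 := by
  simp [tp, Polynomial.eval_comp]

theorem sens_gt {θ : Par} {G : Alg} {q : Polynomial ℕ} {n ℓ ℓ' : ℕ}
    (hT : (TJ θ G q).eval n ≤ 2 ^ ℓ') {y : List Bool} (hy : y.length = (sl q).eval n)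
    (P : ℕ → List Bool) (β : Fin (2 ^ (3 * (TJ θ G q).eval n + 3)) → Bool) :
    sens (gt P ((TJ θ G q).eval n) ℓ ℓ' θ G y β) ≤
      (24 * ((tp θ G q).eval n : ℕ)) ^ θ.k * (((tp θ G q).eval n : ℕ) + 1) := by
  refine gv_sensK (c := 3 * (TJ θ G q).eval n + 3) (m := (mq θ G q).eval n)
    (e := (TJ θ G q).eval n)
    (fun b => oh P ((TJ θ G q).eval n) ℓ (orc _ (mix (Sp P ℓ') β b)))
    (gt_dep hT β) ?_ ?_ ?_ ?_ ?_
  · rw [tp_eval]; omega
  · rw [mq_eval, hy]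
  · rw [Fintype.card_fin]
  · rw [tp_eval, hy]; omega
  · rw [tp_eval]; omega

open Classical in
/-- the number of the bad random strings -/
noncomputable def nbJ (W : Oracle) (N T ℓ : ℕ) (θ : Par) (G : Alg) (q : Polynomial ℕ) (n : ℕ) :
    ℕ := ((strsOf (q.eval n)).filter (fun r => Er W N T ℓ θ G (si n r))).card

theorem nbJ_local {W W' : Oracle} {N T ℓ n : ℕ} {θ : Par} {G : Alg} {q : Polynomial ℕ}
    (h : ∀ s : List Bool, s.length ≤ 3 * T + 2 → W s = W' s) :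
    nbJ W N T ℓ θ G q n ≤ nbJ W' N T ℓ θ G q n := by
  classical
  unfold nbJ
  refine Finset.card_le_card fun x hx => ?_
  obtain ⟨h1, h2⟩ := Finset.mem_filter.1 hx
  exact Finset.mem_filter.2 ⟨h1, er_local h h2⟩

/-- the coefficient -/
noncomputable def Cq (θ : Par) (G : Alg) (q : Polynomial ℕ) : Polynomial ℕ :=
  Polynomial.C 8 * TJ θ G q * (TJ θ G q + 1) ^ 2 *
    (Polynomial.C 3 * tj θ G q + (Polynomial.C 24 * tp θ G q) ^ θ.k * (tp θ G q + 1))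

theorem Cq_eval (θ : Par) (G : Alg) (q : Polynomial ℕ) (n : ℕ) : (Cq θ G q).eval n =
    8 * (TJ θ G q).eval n * ((TJ θ G q).eval n + 1) ^ 2 * (3 * (tj θ G q).eval n +
      (24 * (tp θ G q).eval n) ^ θ.k * ((tp θ G q).eval n + 1)) := by
  simp [Cq]

theorem nbJ_exp {T N n Λ : ℕ} {θ : Par} (hk : θ.k = 1) (G : Alg) (q : Polynomial ℕ)
    (hT : T = (TJ θ G q).eval n) (hN : N = 2 ^ (3 * T + 3)) (hΛ : 2 * T ≤ Λ) (hΛ0 : 0 < Λ) :
    Ex unif (fun a : Fin N → Bool => (nbJ (orc N a) N T (Nat.log 2 Λ) θ G q n : ℝ)) ≤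
      2 ^ (q.eval n) * (((Cq θ G q).eval n : ℕ) / Λ) := by
  classical
  have hT0 : 0 < T := by rw [hT, TJ_eval]; omega
  obtain ⟨ℓ', hℓ'⟩ : ∃ ℓ', ℓ' = Nat.log 2 T + 1 := ⟨_, rfl⟩
  obtain ⟨ℓ, hℓd⟩ : ∃ ℓ, ℓ = Nat.log 2 Λ := ⟨_, rfl⟩
  have hTl : T ≤ 2 ^ ℓ' := by
    rw [hℓ']
    exact (Nat.lt_pow_succ_log_self (by norm_num) _).le
  have hlog : Nat.log 2 (2 * T) = Nat.log 2 T + 1 := by
    rw [mul_comm]
    exact Nat.log_mul_base (by norm_num) hT0.ne'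
  have hℓ : ℓ' ≤ ℓ := by
    rw [hℓ', hℓd, ← hlog]
    exact Nat.log_mono_right hΛ
  have h1 : (fun a : Fin N → Bool => (nbJ (orc N a) N T (Nat.log 2 Λ) θ G q n : ℝ)) =
      fun a => ∑ r ∈ strsOf (q.eval n), if Er (orc N a) N T (Nat.log 2 Λ) θ G (si n r)
        then (1 : ℝ) else 0 := by
    funext a
    unfold nbJ
    rw [Finset.sum_boole]
  rw [h1, Ex_sum]
  refine (Finset.sum_le_sum (g := fun _ => (((Cq θ G q).eval n : ℕ) : ℝ) / Λ)
    fun r hr => ?_).trans ?_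
  swap
  · rw [Finset.sum_const, nsmul_eq_mul, card_strsOf']
    push_cast
    exact le_rfl
  have hl := length_si (q := q) (mem_strsOf'.1 hr)
  have h2 := er_prob (N := N) (T := T) (ℓ := ℓ) (ℓ' := ℓ') (t := (tj θ G q).eval n)
    (by rw [hN]) hℓ hTl hk G (si n r) (by rw [hl, tj_eval, mq_eval])
    (by rw [hl, hT, TJ_eval]; omega) (by rw [hl, hT, TJ_eval, mq_eval]; omega)
    (Sb := (24 * ((tp θ G q).eval n : ℕ)) ^ θ.k * (((tp θ G q).eval n : ℕ) + 1))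
    (fun P β => by
      subst hT
      subst hN
      exact sens_gt hTl hl P β)
  rw [← hℓd]
  refine h2.trans ?_
  rw [Cq_eval, ← hT]
  obtain ⟨S, hS⟩ : ∃ S : ℝ, S = 3 * (((tj θ G q).eval n : ℕ) : ℝ) +
      (24 * (((tp θ G q).eval n : ℕ) : ℝ)) ^ θ.k * ((((tp θ G q).eval n : ℕ) : ℝ) + 1) :=
    ⟨_, rfl⟩
  have hS0 : 0 ≤ S := by rw [hS]; positivity
  have e1 : ((8 * T * (T + 1) ^ 2 * (3 * (tj θ G q).eval n +
      (24 * (tp θ G q).eval n) ^ θ.k * ((tp θ G q).eval n + 1)) : ℕ) : ℝ) =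
      8 * T * ((T : ℝ) + 1) ^ 2 * S := by
    rw [hS]
    push_cast
    ring
  rw [e1, ← hS]
  have hΛR : (0 : ℝ) < Λ := by exact_mod_cast hΛ0
  have h3 : ((1 : ℝ) / 2) ^ (ℓ - ℓ') ≤ 4 * T / Λ := by
    have h4 : (2 : ℝ) ^ (ℓ - ℓ') * 2 ^ ℓ' = 2 ^ ℓ := by
      rw [← pow_add, Nat.sub_add_cancel hℓ]
    have h5 : (Λ : ℝ) ≤ 2 * 2 ^ ℓ := by
      have h6 : Λ < 2 ^ (ℓ + 1) := by
        rw [hℓd]
        exact Nat.lt_pow_succ_log_self (by norm_num) _
      have h7 : Λ ≤ 2 * 2 ^ ℓ := by rw [← pow_succ']; exact h6.le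
      exact_mod_cast h7
    have h6 : (2 : ℝ) ^ ℓ' ≤ 2 * T := by
      have h7 : 2 ^ Nat.log 2 T ≤ T := Nat.pow_log_le_self 2 hT0.ne'
      have h8 : 2 ^ ℓ' ≤ 2 * T := by
        rw [hℓ', pow_succ']
        exact Nat.mul_le_mul_left 2 h7
      exact_mod_cast h8
    rw [one_div, inv_pow, le_div_iff₀ hΛR, inv_mul_eq_div, div_le_iff₀ (by positivity)]
    calc (Λ : ℝ) ≤ 2 * 2 ^ ℓ := h5
      _ = 2 * (2 ^ (ℓ - ℓ') * 2 ^ ℓ') := by rw [h4]
      _ ≤ 2 * (2 ^ (ℓ - ℓ') * (2 * T)) := by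
          apply mul_le_mul_of_nonneg_left _ (by norm_num)
          exact mul_le_mul_of_nonneg_left h6 (by positivity)
      _ = 4 * T * 2 ^ (ℓ - ℓ') := by ring
  calc 2 * (((T : ℝ) + 1) ^ 2 * (1 / 2) ^ (ℓ - ℓ') * S)
      ≤ 2 * (((T : ℝ) + 1) ^ 2 * (4 * T / Λ) * S) := by
        apply mul_le_mul_of_nonneg_left _ (by norm_num)
        apply mul_le_mul_of_nonneg_right _ hS0
        exact mul_le_mul_of_nonneg_left h3 (by positivity)
    _ = 8 * T * ((T : ℝ) + 1) ^ 2 * S / Λ := by ring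

/-- the solver is right for most samples -/
def GoodJ (θ : Par) (G : Alg) (q : Polynomial ℕ) (c : ℕ) (W : Oracle) : Prop :=
  ∃ Λ : Polynomial ℕ, (∀ n, (TJ θ G q).eval n ≤ Λ.eval n) ∧
    ∀ n : ℕ, (n + 1) ^ c * nbJ W (2 ^ (3 * (TJ θ G q).eval n + 3)) ((TJ θ G q).eval n)
      (Nat.log 2 (Λ.eval n)) θ G q n ≤ 2 ^ (q.eval n)

theorem rare_goodJ {θ : Par} (hk : θ.k = 1) (G : Alg) (q : Polynomial ℕ) (c : ℕ) :
    Rare {W | ¬ GoodJ θ G q c W} := by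
  classical
  intro K hK
  obtain ⟨Λ, hΛ⟩ : ∃ Λ : Polynomial ℕ, Λ = Polynomial.C K * Cq θ G q *
      (Polynomial.X + 1) ^ c * ((Polynomial.X + 1) * (Polynomial.X + 2)) + 2 * TJ θ G q + 1 :=
    ⟨_, rfl⟩
  have hΛe : ∀ n, Λ.eval n = K * (Cq θ G q).eval n * (n + 1) ^ c * ((n + 1) * (n + 2)) +
      2 * (TJ θ G q).eval n + 1 := by
    intro n
    rw [hΛ]
    simp
  refine ⟨fun n => 2 ^ (3 * (TJ θ G q).eval n + 3), fun n a =>
    2 ^ (q.eval n) < (n + 1) ^ c * nbJ (orc _ a) (2 ^ (3 * (TJ θ G q).eval n + 3))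
      ((TJ θ G q).eval n) (Nat.log 2 (Λ.eval n)) θ G q n, fun n => ?_, fun W hW => ?_⟩
  · have h1 := nbJ_exp (T := (TJ θ G q).eval n) (N := 2 ^ (3 * (TJ θ G q).eval n + 3))
      (n := n) (Λ := Λ.eval n) hk G q rfl rfl (by rw [hΛe]; omega) (by rw [hΛe]; omega)
    have h2 := markov (fun a : Fin (2 ^ (3 * (TJ θ G q).eval n + 3)) → Bool =>
      (nbJ (orc _ a) (2 ^ (3 * (TJ θ G q).eval n + 3)) ((TJ θ G q).eval n)
        (Nat.log 2 (Λ.eval n)) θ G q n : ℝ)) (fun a => by positivity)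
      (l := 2 ^ (q.eval n) / (n + 1) ^ c) (by positivity)
    refine le_trans (Ex_mono unif_nn (G := fun a : Fin (2 ^ (3 * (TJ θ G q).eval n + 3)) →
        Bool => if (2 : ℝ) ^ (q.eval n) / (n + 1) ^ c <
        (nbJ (orc _ a) (2 ^ (3 * (TJ θ G q).eval n + 3)) ((TJ θ G q).eval n)
        (Nat.log 2 (Λ.eval n)) θ G q n : ℝ) then (1 : ℝ) else 0) fun a => ?_) ?_
    · by_cases h3 : 2 ^ (q.eval n) < (n + 1) ^ c * nbJ (orc _ a)
          (2 ^ (3 * (TJ θ G q).eval n + 3)) ((TJ θ G q).eval n)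
          (Nat.log 2 (Λ.eval n)) θ G q n
      · have h4 : (2 : ℝ) ^ (q.eval n) < (n + 1) ^ c * (nbJ (orc _ a)
          (2 ^ (3 * (TJ θ G q).eval n + 3)) ((TJ θ G q).eval n)
          (Nat.log 2 (Λ.eval n)) θ G q n : ℝ) := by
          exact_mod_cast h3
        rw [if_pos h3, if_pos]
        rw [div_lt_iff₀ (by positivity), mul_comm]
        exact h4
      · rw [if_neg h3]
        split_ifs <;> norm_num
    refine h2.trans ((div_le_div_of_nonneg_right h1 (by positivity)).trans ?_)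
    obtain ⟨Cn, hCn⟩ : ∃ Cn, Cn = (Cq θ G q).eval n := ⟨_, rfl⟩
    obtain ⟨Ln, hLn⟩ : ∃ Ln, Ln = Λ.eval n := ⟨_, rfl⟩
    rw [← hCn, ← hLn]
    have hL0 : (0 : ℝ) < Ln := by
      have : 0 < Ln := by rw [hLn, hΛe]; omega
      exact_mod_cast this
    have h5 : (K : ℝ) * Cn * (n + 1) ^ c * ((n + 1) * (n + 2)) ≤ Ln := by
      have : K * Cn * (n + 1) ^ c * ((n + 1) * (n + 2)) ≤ Ln := by
        rw [hLn, hΛe, hCn]; omega
      exact_mod_cast this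
    have hKR : (0 : ℝ) < K := by exact_mod_cast hK
    rw [div_div_eq_mul_div, div_le_div_iff₀ (by positivity) (by positivity)]
    have h7 : (2 : ℝ) ^ (q.eval n) * ((Cn : ℝ) / Ln) * (n + 1) ^ c * (K * ((n + 1) * (n + 2))) =
        2 ^ (q.eval n) * (((K : ℝ) * Cn * (n + 1) ^ c * ((n + 1) * (n + 2))) / Ln) := by ring
    rw [h7, one_mul]
    calc _ ≤ (2 : ℝ) ^ (q.eval n) * 1 := by
          apply mul_le_mul_of_nonneg_left _ (by positivity)
          rw [div_le_one hL0]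
          exact h5
      _ = 2 ^ (q.eval n) := mul_one _
  · by_contra hcon
    push Not at hcon
    refine hW ⟨Λ, fun n => by rw [hΛe]; omega, fun n => ?_⟩
    refine le_trans (Nat.mul_le_mul_left _ (nbJ_local (fun s hs => ?_))) (hcon n)
    exact (pre_local W (Nat.pow_le_pow_right (by norm_num) (by omega)) hs).symm

end Pool.Agent.W908.KS.JS
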